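import Pool.Agent.K7.H32.LV.Stm

set_option autoImplicit false

namespace Pool.Agent.K7.H89.LVMAP

open Finset Matrix Pool.Agent.K7.H32.LV

variable {R S : Type} [CommRing R] [CommRing S] (f : R →+* S) (u : Rˣ)

theorem cu (g : Rˣ) : f (g : R) = ((Units.map (f : R →* S) g : Sˣ) : S) := rfl

theorem bR_map (n : ℤ) : f (bR u n) = bR (Units.map (f : R →* S) u) n := by
  unfold bR
  rw [map_sub, cu, cu, map_zpow, map_zpow]

theorem qb_map : ∀ n k : ℕ, f (qb u n k) = qb (Units.map (f : R →* S) u) n k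
  | _, 0 => by simp [qb]
  | 0, _ + 1 => by simp [qb]
  | n + 1, k + 1 => by
    simp only [qb]
    rw [map_add, map_mul, map_mul, cu, cu, map_zpow, map_zpow, qb_map n (k + 1), qb_map n k]

theorem cP_map (N : ℕ) : f.mapMatrix (cP N u) = cP N (Units.map (f : R →* S) u) := by
  ext p q
  simp only [RingHom.mapMatrix_apply, Matrix.map_apply]
  unfold cP
  split_ifs
  · rw [map_mul, map_mul, map_mul, map_prod, cu, cu, map_zpow, map_pow, qb_map]
    simp only [bR_map]
  · rw [map_zero]

theorem cN_map (N : ℕ) : f.mapMatrix (cN N u) = cN N (Units.map (f : R →* S) u) := by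
  ext p q
  simp only [RingHom.mapMatrix_apply, Matrix.map_apply]
  unfold cN
  split_ifs
  · rw [map_mul, map_mul, map_mul, map_mul, map_prod, cu, cu, map_zpow, map_inv, map_pow, map_pow,
      qb_map]
    simp only [bR_map, map_neg, map_one]
  · rw [map_zero]

theorem genR_map {ι : Type} [Fintype ι] [DecidableEq ι] (A : Matrix (ι × ι) (ι × ι) R) (n k : ℕ) :
    f.mapMatrix (genR A n k) = genR (f.mapMatrix A) n k := by
  ext s t
  simp only [RingHom.mapMatrix_apply, Matrix.map_apply]
  unfold genR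
  split_ifs <;> simp

theorem repR_map {ι : Type} [Fintype ι] [DecidableEq ι] (P Q : Matrix (ι × ι) (ι × ι) R) (n : ℕ)
    (w : List (ℕ × Bool)) :
    f.mapMatrix (repR P Q n w) = repR (f.mapMatrix P) (f.mapMatrix Q) n w := by
  unfold repR
  rw [map_list_prod, List.map_map]
  congr 1
  apply List.map_congr_left
  intro g _
  simp only [Function.comp]
  rw [genR_map]
  split_ifs <;> rfl

theorem tailR_map {ι : Type} [Fintype ι] (k : ι → R) (n : ℕ)
    (A : Matrix (Fin (n + 1) → ι) (Fin (n + 1) → ι) R) (i j : ι) :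
    f (tailR k n A i j) = tailR (fun x => f (k x)) n (A.map f) i j := by
  unfold tailR
  rw [map_sum]
  simp only [map_mul, map_prod, Matrix.map_apply]

theorem t_map : S_MAP := by
  intro R S _ _ f u N n w
  unfold JR
  split_ifs with h
  · rw [tailR_map]
    congr 1
    · funext x
      rw [cu, map_zpow]
    · rw [← RingHom.mapMatrix_apply, repR_map, cP_map, cN_map]
  · rw [map_zero]

open scoped LaurentPolynomial in
theorem t_pol (hM : S_MAP) : S_POL := by
  intro N n w
  let T1 : (LaurentPolynomial ℤ)ˣ :=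
    ⟨LaurentPolynomial.T 1, LaurentPolynomial.T (-1), by rw [← LaurentPolynomial.T_add]; simp,
      by rw [← LaurentPolynomial.T_add]; simp⟩
  obtain ⟨M, P, hP⟩ := LaurentPolynomial.exists_T_pow (JR N n w T1)
  refine ⟨P, M, ?_⟩
  intro R _ u
  let ev : LaurentPolynomial ℤ →+* R := LaurentPolynomial.eval₂ (Int.castRingHom R) u
  have hu : Units.map (ev : LaurentPolynomial ℤ →* R) T1 = u := by
    ext
    change ev (LaurentPolynomial.T 1) = (u : R)
    simp [ev]
  have h1 := congrArg ev hP
  rw [map_mul, hM _ _ ev T1, hu] at h1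
  have h2 : ev (LaurentPolynomial.T (M : ℤ)) = (u : R) ^ M := by
    simp [ev]
  have h3 : ev (Polynomial.toLaurent P) = Polynomial.aeval (u : R) P := by
    simp only [ev, LaurentPolynomial.eval₂_toLaurent, Polynomial.aeval_def, algebraMap_int_eq]
  rw [h2, h3] at h1
  exact h1.symm

theorem cP_one (u : Rˣ) (p q : Fin 1 × Fin 1) : cP 1 u p q = 1 := by
  obtain ⟨p1, p2⟩ := p
  obtain ⟨q1, q2⟩ := q
  have h1 : p1 = 0 := Subsingleton.elim _ _
  have h2 : p2 = 0 := Subsingleton.elim _ _
  have h3 : q1 = 0 := Subsingleton.elim _ _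
  have h4 : q2 = 0 := Subsingleton.elim _ _
  subst h1 h2 h3 h4
  simp [cP, qb]

theorem cN_one (u : Rˣ) (p q : Fin 1 × Fin 1) : cN 1 u p q = 1 := by
  obtain ⟨p1, p2⟩ := p
  obtain ⟨q1, q2⟩ := q
  have h1 : p1 = 0 := Subsingleton.elim _ _
  have h2 : p2 = 0 := Subsingleton.elim _ _
  have h3 : q1 = 0 := Subsingleton.elim _ _
  have h4 : q2 = 0 := Subsingleton.elim _ _
  subst h1 h2 h3 h4
  simp [cN, qb]

theorem t_one : S_ONE := by
  intro n w R _ u
  unfold JR
  rw [dif_pos (by norm_num)]
  have hrep : repR (cP 1 u) (cN 1 u) (n + 1) w = 1 := by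
    unfold repR
    apply List.prod_eq_one
    intro A hA
    rw [List.mem_map] at hA
    obtain ⟨g, _, rfl⟩ := hA
    ext s t
    have hst : s = t := Subsingleton.elim _ _
    subst hst
    unfold genR
    rw [Matrix.one_apply_eq]
    split_ifs with h1 h2 h3
    · exact cP_one _ _ _
    · exact cN_one _ _ _
    all_goals first | rfl | (exfalso; simp_all)
  rw [hrep]
  unfold tailR
  rw [Fintype.sum_eq_single (fun _ => 0) (fun s hs => absurd (Subsingleton.elim _ _) hs)]
  rw [Matrix.one_apply_eq]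
  simp

end Pool.Agent.K7.H89.LVMAP
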