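import Pool.Agent.K7.H89.OG_SUF

set_option autoImplicit false

namespace Pool.Agent.K7.H89.OGM

open Finset Pool.Agent.K7.H50.OG Pool.Agent.K7.H89.OGS

theorem stMon : StMon := by
  classical
  intro n k E hn hk hcon hG R
  obtain ⟨N, hN⟩ : ∃ N, N = (n - 1) * (k - 1) + 1 := ⟨_, rfl⟩
  have hN' : (n + 1 - 1) * (k - 1) + 1 = N + (k - 1) := by
    obtain ⟨m, rfl⟩ : ∃ m, n = m + 1 := ⟨n - 1, by omega⟩
    rw [hN, Nat.add_sub_cancel, Nat.add_sub_cancel]
    ring
  rw [← hN]
  rcases hG (fun x y => (x ≤ N ∧ y ≤ N ∧ R x y) ∨ (N < x ∧ N < y)) with h | h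
  · rw [hN'] at h
    left
    obtain ⟨f, h1, h2, h3⟩ := h
    have hcl : ∀ i j, 1 ≤ i → i < j → j ≤ k → E i j → (f i ≤ N ↔ f j ≤ N) := by
      intro i j a1 a2 a3 a4
      have := h3 i j a1 a2 a3 a4
      simp only at this
      omega
    have hall : ∀ j, 1 ≤ j → j ≤ k → f j ≤ N := by
      by_cases h4 : f 1 ≤ N
      · exact hcon.closed (fun i => f i ≤ N) hcl le_rfl hk h4
      · exfalso
        have h5 := mono_gap h2 le_rfl hk le_rfl
        have h6 := h1 k hk le_rfl
        omega
    refine ⟨f, fun i a1 a2 => ⟨(h1 i a1 a2).1, hall i a1 a2⟩, h2, ?_⟩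
    intro i j a1 a2 a3 a4
    rcases h3 i j a1 a2 a3 a4 with h5 | h5
    · exact h5.2.2
    · have := hall j (by omega) a3
      omega
  · right
    rw [hN'] at h
    obtain ⟨g, h1, h2⟩ := h
    have h3 := h2 n (n + 1) hn (by omega) le_rfl
    have h4 : g n ≤ N := by
      by_contra h5
      exact h3.2 (Or.inr ⟨by omega, by omega⟩)
    have h5 : ∀ i, 1 ≤ i → i ≤ n → g i ≤ N := by
      intro i a1 a2
      rcases Nat.lt_or_ge i n with h6 | h6
      · have := (h2 i n a1 h6 (by omega)).1
        omega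
      · have : i = n := by omega
        rw [this]
        exact h4
    refine ⟨g, fun i a1 a2 => ⟨(h1 i a1 (by omega)).1, h5 i a1 a2⟩, ?_⟩
    intro i j a1 a2 a3
    have h6 := h2 i j a1 a2 (by omega)
    exact ⟨h6.1, fun hR => h6.2 (Or.inl ⟨h5 i a1 (by omega), h5 j (by omega) a3, hR⟩)⟩

theorem greedy (k : ℕ) (hk : 2 ≤ k) (lt T : ℕ → ℕ → Prop)
    (hmin : ∀ S : Finset ℕ, S.Nonempty → ∃ v ∈ S, ∀ w ∈ S, w ≠ v → lt v w)
    (hirr : ∀ x, ¬ lt x x) (hasy : ∀ x y, lt x y → ¬ lt y x) (n : ℕ) : ∀ S : Finset ℕ,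
    n * (k - 1) + 1 ≤ S.card →
    (∃ v ∈ S, ∃ B ⊆ S, k - 1 ≤ B.card ∧ ∀ w ∈ B, lt v w ∧ T v w) ∨
    ∃ K ⊆ S, K.card = n + 1 ∧ ∀ x ∈ K, ∀ y ∈ K, lt x y → ¬ T x y := by
  classical
  induction n with
  | zero =>
    intro S hS
    right
    have h1 : S.Nonempty := by
      rw [← card_pos]
      omega
    obtain ⟨v, hv⟩ := h1
    refine ⟨{v}, by simpa using hv, by simp, ?_⟩
    intro x hx y hy hxy
    rw [mem_singleton] at hx hy
    subst hx
    subst hy
    exact absurd hxy (hirr _)
  | succ n ih =>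
    intro S hS
    have e : (n + 1) * (k - 1) = n * (k - 1) + (k - 1) := by ring
    have h1 : S.Nonempty := by
      rw [← card_pos]
      omega
    obtain ⟨v, hv, hv'⟩ := hmin S h1
    by_cases h2 : k - 1 ≤ ((S.erase v).filter fun w => T v w).card
    · left
      refine ⟨v, hv, _, (filter_subset _ _).trans (erase_subset _ _), h2, ?_⟩
      intro w hw
      rw [mem_filter, mem_erase] at hw
      exact ⟨hv' w hw.1.2 hw.1.1, hw.2⟩
    · have h3 : ((S.erase v).filter fun w => T v w).card +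
          ((S.erase v).filter fun w => ¬ T v w).card = (S.erase v).card :=
        card_filter_add_card_filter_not _
      rw [card_erase_of_mem hv] at h3
      rcases ih ((S.erase v).filter fun w => ¬ T v w) (by omega) with h4 | h4
      · left
        obtain ⟨x, hx, B, hB, hB'⟩ := h4
        exact ⟨x, mem_of_mem_erase (mem_of_mem_filter _ hx), B,
          hB.trans ((filter_subset _ _).trans (erase_subset _ _)), hB'⟩
      · right
        obtain ⟨K, hK, hc, hK'⟩ := h4
        have hvK : v ∉ K := fun h => by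
          have := hK h
          rw [mem_filter, mem_erase] at this
          exact this.1.1 rfl
        have hm : ∀ w ∈ K, w ∈ S ∧ w ≠ v ∧ ¬ T v w := by
          intro w hw
          have := hK hw
          rw [mem_filter, mem_erase] at this
          exact ⟨this.1.2, this.1.1, this.2⟩
        refine ⟨insert v K, ?_, ?_, ?_⟩
        · intro w hw
          rw [mem_insert] at hw
          rcases hw with rfl | hw
          · exact hv
          · exact (hm w hw).1
        · rw [card_insert_of_notMem hvK, hc]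
        · intro x hx y hy hxy
          rw [mem_insert] at hx hy
          rcases hx with rfl | hx <;> rcases hy with rfl | hy
          · exact absurd hxy (hirr _)
          · exact (hm y hy).2.2
          · exact absurd (hv' x (hm x hx).1 (hm x hx).2.1) (hasy _ _ hxy)
          · exact hK' x hx y hy hxy

theorem star1_cop {k N : ℕ} {R : Gr} {v : ℕ} (hv : 1 ≤ v) (hv' : v ≤ N) (B : Finset ℕ)
    (hB : ∀ w ∈ B, v < w ∧ w ≤ N ∧ R v w) (hc : k - 1 ≤ B.card) : Cop k N (DD 1) R := by
  have mB : ∀ i, 1 < i → i ≤ k → el B (i - 2) ∈ B := fun i h1 h2 => el_mem (by omega)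
  refine ⟨fun i => if i ≤ 1 then v else el B (i - 2), ?_, ?_, ?_⟩
  · intro i h1 h2
    simp only
    split_ifs with h3
    · omega
    · have := hB _ (mB i (by omega) h2)
      omega
  · intro i j h1 h2 h3
    simp only
    rw [if_neg (show ¬ j ≤ 1 by omega)]
    split_ifs with h4
    · exact (hB _ (mB j (by omega) h3)).1
    · exact el_lt (by omega) (by omega)
  · intro i j h1 h2 h3 h4
    simp only
    have h5 : i ≤ 1 := by
      rcases h4 with h4 | h4 <;> omega
    rw [if_neg (show ¬ j ≤ 1 by omega), if_pos h5]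
    exact (hB _ (mB j (by omega) h3)).2.2

theorem star2_cop {k N : ℕ} {R : Gr} {v : ℕ} (hv : 1 ≤ v) (hv' : v ≤ N) (B : Finset ℕ)
    (hB : ∀ w ∈ B, 1 ≤ w ∧ w < v ∧ R w v) (hc : k - 1 ≤ B.card) : Cop k N (DD (k - 1)) R := by
  have mB : ∀ i, 1 ≤ i → i < k → el B (i - 1) ∈ B := fun i h1 h2 => el_mem (by omega)
  refine ⟨fun i => if i < k then el B (i - 1) else v, ?_, ?_, ?_⟩
  · intro i h1 h2
    simp only
    split_ifs with h3
    · have := hB _ (mB i h1 h3)
      omega
    · omega
  · intro i j h1 h2 h3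
    simp only
    rw [if_pos (show i < k by omega)]
    split_ifs with h4
    · exact el_lt (by omega) (by omega)
    · exact (hB _ (mB i h1 (by omega))).2.1
  · intro i j h1 h2 h3 h4
    simp only
    have h5 : ¬ j < k := by
      rcases h4 with h4 | h4 <;> omega
    rw [if_pos (show i < k by omega), if_neg h5]
    exact (hB _ (mB i h1 (by omega))).2.2

theorem blu_of {n N : ℕ} {R : Gr} (K : Finset ℕ) (hK : ∀ x ∈ K, 1 ≤ x ∧ x ≤ N) (hc : n ≤ K.card)
    (hb : ∀ x ∈ K, ∀ y ∈ K, x < y → ¬ R x y) : Blu n N R := by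
  refine ⟨fun i => el K (i - 1), ?_, ?_⟩
  · intro i h1 h2
    exact hK _ (el_mem (by omega))
  · intro i j h1 h2 h3
    have h4 : el K (i - 1) < el K (j - 1) := el_lt (by omega) (by omega)
    exact ⟨h4, hb _ (el_mem (by omega)) _ (el_mem (by omega)) h4⟩

theorem stStar : StStar := by
  classical
  intro n k a hn hk ha R
  obtain ⟨N, hN⟩ : ∃ N, N = (n - 1) * (k - 1) + 1 := ⟨_, rfl⟩
  rw [← hN]
  have hS : (n - 1) * (k - 1) + 1 ≤ (Icc 1 N).card := by
    rw [Nat.card_Icc]
    omega
  rcases ha with rfl | rfl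
  · rcases greedy k hk (fun x y => x < y) R
      (fun S h => ⟨S.min' h, S.min'_mem h, fun w hw hne =>
        lt_of_le_of_ne (S.min'_le w hw) (Ne.symm hne)⟩)
      (fun x => lt_irrefl x) (fun x y h => lt_asymm h) (n - 1) (Icc 1 N) hS with h | h
    · left
      obtain ⟨v, hv, B, hB, hc, hB'⟩ := h
      rw [mem_Icc] at hv
      refine star1_cop hv.1 hv.2 B ?_ hc
      intro w hw
      have := hB hw
      rw [mem_Icc] at this
      exact ⟨(hB' w hw).1, this.2, (hB' w hw).2⟩
    · right
      obtain ⟨K, hK, hc, hK'⟩ := h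
      refine blu_of K (fun x hx => by simpa [mem_Icc] using hK hx) (by omega) hK'
  · rcases greedy k hk (fun x y => y < x) (fun x y => R y x)
      (fun S h => ⟨S.max' h, S.max'_mem h, fun w hw hne =>
        lt_of_le_of_ne (S.le_max' w hw) hne⟩)
      (fun x => lt_irrefl x) (fun x y h => lt_asymm h) (n - 1) (Icc 1 N) hS with h | h
    · left
      obtain ⟨v, hv, B, hB, hc, hB'⟩ := h
      rw [mem_Icc] at hv
      refine star2_cop hv.1 hv.2 B ?_ hc
      intro w hw
      have := hB hw
      rw [mem_Icc] at this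
      exact ⟨this.1, (hB' w hw).1, (hB' w hw).2⟩
    · right
      obtain ⟨K, hK, hc, hK'⟩ := h
      refine blu_of K (fun x hx => by simpa [mem_Icc] using hK hx) (by omega) ?_
      intro x hx y hy hxy
      exact hK' y hy x hx hxy

end Pool.Agent.K7.H89.OGM
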