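import Pool.Agent.K7.H50.OG.Basic

set_option autoImplicit false

namespace Pool.Agent.K7.H89.OGS

open Finset Pool.Agent.K7.H50.OG

/-- the element number `i` (from `0`) of `A` -/
noncomputable def el (A : Finset ℕ) (i : ℕ) : ℕ := Nat.nth (fun x => x ∈ A) i

theorem fin (A : Finset ℕ) : (Set.ofPred fun x => x ∈ A).Finite := A.finite_toSet

theorem fin_card (A : Finset ℕ) (hf : (Set.ofPred fun x => x ∈ A).Finite) :
    hf.toFinset.card = A.card := by
  congr 1
  ext x
  simp

theorem el_mem {A : Finset ℕ} {i : ℕ} (h : i < A.card) : el A i ∈ A :=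
  Nat.nth_mem_of_lt_card (fin A) (by rw [fin_card]; exact h)

theorem el_lt {A : Finset ℕ} {i j : ℕ} (hij : i < j) (h : j < A.card) : el A i < el A j :=
  Nat.nth_lt_nth_of_lt_card (fin A) hij (by rw [fin_card]; exact h)

theorem el_cnt {A : Finset ℕ} {i : ℕ} (h : i < A.card) :
    (A.filter fun x => x < el A i).card = i := by
  classical
  have h1 := Nat.count_nth_of_lt_card_finite (p := fun x => x ∈ A) (fin A) (n := i)
    (by rw [fin_card]; exact h)
  rw [Nat.count_eq_card_filter_range] at h1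
  have h2 : (A.filter fun x => x < el A i) = (range (el A i)).filter (fun x => x ∈ A) := by
    ext x
    simp only [mem_filter, mem_range]
    exact and_comm
  rw [h2]
  exact h1

/-- a red clique with `k` elements contains every graph on `1..k` -/
theorem clique_cop {k N : ℕ} {E R : Gr} (K : Finset ℕ) (hK : ∀ x ∈ K, 1 ≤ x ∧ x ≤ N)
    (hR : ∀ x ∈ K, ∀ y ∈ K, x < y → R x y) (hc : k ≤ K.card) : Cop k N E R := by
  refine ⟨fun i => el K (i - 1), ?_, ?_, ?_⟩
  · intro i h1 h2
    exact hK _ (el_mem (by omega))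
  · intro i j h1 h2 h3
    exact el_lt (by omega) (by omega)
  · intro i j h1 h2 h3 _
    exact hR _ (el_mem (by omega)) _ (el_mem (by omega)) (el_lt (by omega) (by omega))

/-- a double star in the red graph -/
theorem dd_cop {k a N : ℕ} {R : Gr} (ha : 1 ≤ a) (hak : a < k) {x y : ℕ} (hx : 1 ≤ x) (hxy : x < y)
    (hy : y ≤ N) (hR : R x y) (A B : Finset ℕ) (hA : ∀ w ∈ A, 1 ≤ w ∧ w < x ∧ R w y)
    (hB : ∀ w ∈ B, y < w ∧ w ≤ N ∧ R x w) (cA : a - 1 ≤ A.card) (cB : k - a - 1 ≤ B.card) :
    Cop k N (DD a) R := by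
  have d1 : ∀ i, 1 ≤ i → i < a → (if i < a then el A (i - 1) else if i = a then x else
      if i = a + 1 then y else el B (i - a - 2)) = el A (i - 1) := fun i _ h => by rw [if_pos h]
  have mA : ∀ i, 1 ≤ i → i < a → el A (i - 1) ∈ A := fun i h1 h2 => el_mem (by omega)
  have mB : ∀ i, a + 1 < i → i ≤ k → el B (i - a - 2) ∈ B := fun i h1 h2 => el_mem (by omega)
  refine ⟨fun i => if i < a then el A (i - 1) else if i = a then x else
      if i = a + 1 then y else el B (i - a - 2), ?_, ?_, ?_⟩
  · intro i h1 h2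
    simp only
    split_ifs with p1 p2 p3
    · have := hA _ (mA i h1 p1)
      omega
    · omega
    · omega
    · have := hB _ (mB i (by omega) h2)
      omega
  · intro i j h1 h2 h3
    simp only
    by_cases p1 : i < a
    · have q1 := hA _ (mA i h1 p1)
      rw [if_pos p1]
      by_cases p2 : j < a
      · rw [if_pos p2]
        exact el_lt (by omega) (by omega)
      · rw [if_neg p2]
        by_cases p3 : j = a
        · rw [if_pos p3]
          omega
        · rw [if_neg p3]
          by_cases p4 : j = a + 1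
          · rw [if_pos p4]
            omega
          · rw [if_neg p4]
            have q2 := hB _ (mB j (by omega) h3)
            omega
    · rw [if_neg p1]
      by_cases p2 : i = a
      · rw [if_pos p2, if_neg (by omega), if_neg (by omega)]
        by_cases p4 : j = a + 1
        · rw [if_pos p4]
          omega
        · rw [if_neg p4]
          have q2 := hB _ (mB j (by omega) h3)
          omega
      · rw [if_neg p2, if_neg (show ¬ j < a by omega), if_neg (show ¬ j = a by omega),
          if_neg (show ¬ j = a + 1 by omega)]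
        have q2 := hB _ (mB j (by omega) h3)
        by_cases p4 : i = a + 1
        · rw [if_pos p4]
          omega
        · rw [if_neg p4]
          exact el_lt (by omega) (by omega)
  · intro i j h1 h2 h3 hE
    simp only
    rcases hE with ⟨e1, e2⟩ | ⟨e1, e2⟩
    · subst e1
      rw [if_neg (show ¬ a + 1 < a by omega), if_neg (show ¬ a + 1 = a by omega), if_pos rfl]
      by_cases p1 : i < a
      · rw [if_pos p1]
        exact (hA _ (mA i h1 p1)).2.2
      · rw [if_neg p1, if_pos (by omega)]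
        exact hR
    · subst e1
      rw [if_neg (lt_irrefl _), if_pos rfl, if_neg (show ¬ j < i by omega),
        if_neg (show ¬ j = i by omega)]
      by_cases p4 : j = i + 1
      · rw [if_pos p4]
        exact hR
      · rw [if_neg p4]
        exact (hB _ (mB j (by omega) h3)).2.2

theorem stSuf : StSuf := by
  classical
  intro k a ha hak R
  by_contra hcon
  push Not at hcon
  obtain ⟨hC, hB⟩ := hcon
  obtain ⟨al, hal⟩ : ∃ al, al = a - 1 := ⟨_, rfl⟩
  obtain ⟨be, hbe⟩ : ∃ be, be = k - a - 1 := ⟨_, rfl⟩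
  obtain ⟨N, hN⟩ : ∃ N, N = (3 - 1) * (k - 1) + 1 := ⟨_, rfl⟩
  rw [← hN] at hC hB
  have hN' : N = 2 * al + 2 * be + 3 := by omega
  have hk : k = al + be + 2 := by omega
  -- no blue triangle
  have hT : ∀ x y z, 1 ≤ x → x < y → y < z → z ≤ N → R x y ∨ R x z ∨ R y z := by
    intro x y z h1 h2 h3 h4
    by_contra hno
    push Not at hno
    apply hB
    refine ⟨fun i => if i = 1 then x else if i = 2 then y else z, ?_, ?_⟩
    · intro i i1 i2
      simp only
      split_ifs <;> omega
    · intro i j i1 i2 i3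
      have hc : (i = 1 ∧ j = 2) ∨ (i = 1 ∧ j = 3) ∨ (i = 2 ∧ j = 3) := by omega
      rcases hc with ⟨rfl, rfl⟩ | ⟨rfl, rfl⟩ | ⟨rfl, rfl⟩
      · simpa using ⟨h2, hno.1⟩
      · simpa using ⟨h2.trans h3, hno.2.1⟩
      · simpa using ⟨h3, hno.2.2⟩
  -- red cliques are small
  have hK : ∀ K : Finset ℕ, (∀ x ∈ K, 1 ≤ x ∧ x ≤ N) → (∀ x ∈ K, ∀ y ∈ K, x < y → R x y) →
      K.card ≤ al + be + 1 := by
    intro K h1 h2
    by_contra h3
    exact hC (clique_cop K h1 h2 (by omega))
  -- no double star
  have hD : ∀ x y, 1 ≤ x → x < y → y ≤ N → R x y → al ≤ ((Ico 1 x).filter fun w => R w y).card →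
      ((Ioc y N).filter fun w => R x w).card < be := by
    intro x y h1 h2 h3 h4 h5
    by_contra h6
    apply hC
    refine dd_cop ha hak h1 h2 h3 h4 ((Ico 1 x).filter fun w => R w y)
      ((Ioc y N).filter fun w => R x w) ?_ ?_ (by omega) (by omega)
    · intro w hw
      rw [mem_filter, mem_Ico] at hw
      exact ⟨hw.1.1, hw.1.2, hw.2⟩
    · intro w hw
      rw [mem_filter, mem_Ioc] at hw
      exact ⟨hw.1.1, hw.1.2, hw.2⟩
  -- the blue neighbours of a vertex form a red clique
  have hbl : ∀ v, 1 ≤ v → v ≤ N → ∀ S : Finset ℕ, (∀ w ∈ S, 1 ≤ w ∧ w ≤ N ∧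
      ((w < v ∧ ¬ R w v) ∨ (v < w ∧ ¬ R v w))) → ∀ x ∈ S, ∀ y ∈ S, x < y → R x y := by
    intro v h1 h2 S hS x hx y hy hxy
    obtain ⟨x1, x2, x3⟩ := hS x hx
    obtain ⟨y1, y2, y3⟩ := hS y hy
    rcases x3 with ⟨x3, x4⟩ | ⟨x3, x4⟩ <;> rcases y3 with ⟨y3, y4⟩ | ⟨y3, y4⟩
    · have := hT x y v x1 hxy y3 h2
      tauto
    · have := hT x v y x1 x3 y3 y2
      tauto
    · omega
    · have := hT v x y h1 x3 hxy y2
      tauto
  let fR : ℕ → Finset ℕ := fun v => (Ico 1 v).filter fun w => R w v
  let gR : ℕ → Finset ℕ := fun v => (Ioc v N).filter fun w => R v w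
  have hdeg : ∀ v, 1 ≤ v → v ≤ N → al + be + 1 ≤ (fR v).card + (gR v).card := by
    intro v h1 h2
    have e1 : ((Ico 1 v).filter fun w => R w v).card + ((Ico 1 v).filter fun w => ¬ R w v).card =
        v - 1 := by
      rw [card_filter_add_card_filter_not, Nat.card_Ico]
    have e2 : ((Ioc v N).filter fun w => R v w).card + ((Ioc v N).filter fun w => ¬ R v w).card =
        N - v := by
      rw [card_filter_add_card_filter_not, Nat.card_Ioc]
    have e3 : (((Ico 1 v).filter fun w => ¬ R w v) ∪ ((Ioc v N).filter fun w => ¬ R v w)).card =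
        ((Ico 1 v).filter fun w => ¬ R w v).card + ((Ioc v N).filter fun w => ¬ R v w).card := by
      rw [card_union_of_disjoint]
      rw [disjoint_left]
      intro w hw hw'
      rw [mem_filter, mem_Ico] at hw
      rw [mem_filter, mem_Ioc] at hw'
      omega
    have hmem : ∀ w ∈ (((Ico 1 v).filter fun w => ¬ R w v) ∪ ((Ioc v N).filter fun w => ¬ R v w)),
        1 ≤ w ∧ w ≤ N ∧ ((w < v ∧ ¬ R w v) ∨ (v < w ∧ ¬ R v w)) := by
      intro w hw
      rw [mem_union, mem_filter, mem_filter, mem_Ico, mem_Ioc] at hw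
      rcases hw with hw | hw
      · exact ⟨hw.1.1, by omega, Or.inl ⟨hw.1.2, hw.2⟩⟩
      · exact ⟨by omega, hw.1.2, Or.inr ⟨hw.1.1, hw.2⟩⟩
    have e4 := hK _ (fun w hw => ⟨(hmem w hw).1, (hmem w hw).2.1⟩) (hbl v h1 h2 _ hmem)
    show al + be + 1 ≤ ((Ico 1 v).filter fun w => R w v).card +
      ((Ioc v N).filter fun w => R v w).card
    omega
  -- the last vertex with many right neighbours
  let P : ℕ → Prop := fun v => 1 ≤ v ∧ be + 1 ≤ (gR v).card
  have hP1 : P 1 := by
    have h1 := hdeg 1 le_rfl (by omega)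
    have h2 : (fR 1).card = 0 := by
      rw [card_eq_zero]
      apply filter_eq_empty_iff.2
      intro w hw
      rw [mem_Ico] at hw
      omega
    exact ⟨le_rfl, by omega⟩
  obtain ⟨p, hp⟩ : ∃ p, p = Nat.findGreatest P N := ⟨_, rfl⟩
  have hPp : P p := by
    rw [hp]
    exact Nat.findGreatest_spec (show 1 ≤ N by omega) hP1
  have hpN : p ≤ N := by
    rw [hp]
    exact Nat.findGreatest_le N
  have hgt : ∀ v, p < v → v ≤ N → (gR v).card ≤ be := by
    intro v h1 h2
    by_contra h3
    exact Nat.findGreatest_is_greatest (P := P) (by rw [← hp]; exact h1) h2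
      ⟨by omega, by omega⟩
  obtain ⟨hp1, hpg⟩ := hPp
  have hpN' : p < N := by
    rcases Nat.lt_or_ge p N with h | h
    · exact h
    · exfalso
      have : (gR p).card = 0 := by
        rw [card_eq_zero]
        apply filter_eq_empty_iff.2
        intro w hw
        rw [mem_Ioc] at hw
        omega
      omega
  -- cliques above `p`
  have hcl : ∀ S : Finset ℕ, (∀ w ∈ S, p < w ∧ w ≤ N) → (∀ x ∈ S, ∀ y ∈ S, x < y → R x y) →
      S.card ≤ be + 1 := by
    intro S h1 h2
    rcases S.eq_empty_or_nonempty with h | h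
    · rw [h]
      simp
    · have hm := S.min'_mem h
      have h3 : (S.erase (S.min' h)) ⊆ gR (S.min' h) := by
        intro w hw
        rw [mem_erase] at hw
        have h4 : S.min' h < w := lt_of_le_of_ne (S.min'_le w hw.2) (Ne.symm hw.1)
        show w ∈ (Ioc (S.min' h) N).filter fun w => R (S.min' h) w
        rw [mem_filter, mem_Ioc]
        exact ⟨⟨h4, (h1 w hw.2).2⟩, h2 _ hm _ hw.2 h4⟩
      have h5 := card_le_card h3
      rw [card_erase_of_mem hm] at h5
      have h6 := hgt _ (h1 _ hm).1 (h1 _ hm).2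
      omega
  -- the vertex `p + 1`
  have hp2 : 2 * al + 2 ≤ p := by
    have h1 := hdeg (p + 1) (by omega) (by omega)
    have h2 := hgt (p + 1) (by omega) (by omega)
    have hne : (fR (p + 1)).Nonempty := by
      rw [← card_pos]
      omega
    obtain ⟨x, hx⟩ : ∃ x, x = (fR (p + 1)).max' hne := ⟨_, rfl⟩
    have hxm : x ∈ fR (p + 1) := by
      rw [hx]
      exact max'_mem _ _
    have hxm' := hxm
    change x ∈ (Ico 1 (p + 1)).filter fun w => R w (p + 1) at hxm'
    rw [mem_filter, mem_Ico] at hxm'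
    have h3 : (fR (p + 1)).erase x ⊆ (Ico 1 x).filter fun w => R w (p + 1) := by
      intro w hw
      rw [mem_erase] at hw
      have h4 : w ≤ x := by
        rw [hx]
        exact le_max' _ _ hw.2
      have h5 := hw.2
      change w ∈ (Ico 1 (p + 1)).filter fun w => R w (p + 1) at h5
      rw [mem_filter, mem_Ico] at h5
      rw [mem_filter, mem_Ico]
      exact ⟨⟨h5.1.1, by omega⟩, h5.2⟩
    have h4 := card_le_card h3
    rw [card_erase_of_mem hxm] at h4
    have h5 := hD x (p + 1) hxm'.1.1 hxm'.1.2 (by omega) hxm'.2 (by omega)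
    have h6 : ((Ioc (p + 1) N).filter fun w => R x w).card +
        ((Ioc (p + 1) N).filter fun w => ¬ R x w).card = N - (p + 1) := by
      rw [card_filter_add_card_filter_not, Nat.card_Ioc]
    have h7 : ((Ioc (p + 1) N).filter fun w => ¬ R x w).card ≤ be + 1 := by
      apply hcl
      · intro w hw
        rw [mem_filter, mem_Ioc] at hw
        omega
      · refine hbl x hxm'.1.1 (by omega) _ ?_
        intro w hw
        rw [mem_filter, mem_Ioc] at hw
        exact ⟨by omega, hw.1.2, Or.inr ⟨by omega, hw.2⟩⟩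
    omega
  -- the first right neighbour of `p`
  have hne : (gR p).Nonempty := by
    rw [← card_pos]
    omega
  obtain ⟨y, hy⟩ : ∃ y, y = (gR p).min' hne := ⟨_, rfl⟩
  have hym : y ∈ gR p := by
    rw [hy]
    exact min'_mem _ _
  have hym' := hym
  change y ∈ (Ioc p N).filter fun w => R p w at hym'
  rw [mem_filter, mem_Ioc] at hym'
  have hM : ((Ico 1 p).filter fun w => R w y).card < al := by
    by_contra hcon
    have h1 := hD p y hp1 hym'.1.1 hym'.1.2 hym'.2 (by omega)
    have h2 : (gR p).erase y ⊆ (Ioc y N).filter fun w => R p w := by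
      intro w hw
      rw [mem_erase] at hw
      have h4 : y ≤ w := by
        rw [hy]
        exact min'_le _ _ hw.2
      have h5 := hw.2
      change w ∈ (Ioc p N).filter fun w => R p w at h5
      rw [mem_filter, mem_Ioc] at h5
      rw [mem_filter, mem_Ioc]
      exact ⟨⟨by omega, h5.1.2⟩, h5.2⟩
    have h3 := card_le_card h2
    rw [card_erase_of_mem hym] at h3
    omega
  obtain ⟨M, hMd⟩ : ∃ M, M = (Ico 1 p).filter fun w => R w y := ⟨_, rfl⟩
  obtain ⟨K, hKd⟩ : ∃ K, K = (Ico 1 p).filter fun w => ¬ R w y := ⟨_, rfl⟩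
  rw [← hMd] at hM
  have hMK : M.card + K.card = p - 1 := by
    rw [hMd, hKd, card_filter_add_card_filter_not, Nat.card_Ico]
  have hKm : ∀ w ∈ K, 1 ≤ w ∧ w < p ∧ ¬ R w y := by
    intro w hw
    rw [hKd, mem_filter, mem_Ico] at hw
    exact ⟨hw.1.1, hw.1.2, hw.2⟩
  have hKcl : ∀ x ∈ K, ∀ x' ∈ K, x < x' → R x x' := by
    refine hbl y (by omega) hym'.1.2 K ?_
    intro w hw
    have := hKm w hw
    exact ⟨this.1, by omega, Or.inl ⟨by omega, this.2.2⟩⟩
  have hKc : al + 2 ≤ K.card := by omega
  -- the elements number `al + 1` and `al + 2` of `K`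
  have m0 : el K al ∈ K := el_mem (by omega)
  have m1 : el K (al + 1) ∈ K := el_mem (by omega)
  have l01 : el K al < el K (al + 1) := el_lt (by omega) (by omega)
  have n0 := el_cnt (A := K) (i := al) (by omega)
  have n1 := el_cnt (A := K) (i := al + 1) (by omega)
  generalize el K al = k0 at m0 l01 n0
  generalize el K (al + 1) = k1 at m1 l01 n1
  have q0 := hKm k0 m0
  have q1 := hKm k1 m1
  have hr01 := hKcl k0 m0 k1 m1 l01
  have h1 : al ≤ ((Ico 1 k0).filter fun w => R w k1).card := by
    rw [← n0]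
    apply card_le_card
    intro w hw
    rw [mem_filter] at hw
    rw [mem_filter, mem_Ico]
    exact ⟨⟨(hKm w hw.1).1, hw.2⟩, hKcl w hw.1 k1 m1 (by omega)⟩
  have h2 := hD k0 k1 q0.1 l01 (by omega) hr01 h1
  have h3 : ((Ioc k1 N).filter fun w => R k0 w).card +
      ((Ioc k1 N).filter fun w => ¬ R k0 w).card = N - k1 := by
    rw [card_filter_add_card_filter_not, Nat.card_Ioc]
  -- `k1` is the number of the elements of `K` and `M` up to `k1`
  have h4 : k1 - 1 = (al + 1) + (M.filter fun w => w < k1).card := by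
    have e1 : ((Ico 1 k1).filter fun w => R w y).card + ((Ico 1 k1).filter fun w => ¬ R w y).card =
        k1 - 1 := by
      rw [card_filter_add_card_filter_not, Nat.card_Ico]
    have e2 : (Ico 1 k1).filter (fun w => R w y) = M.filter fun w => w < k1 := by
      ext w
      rw [hMd, mem_filter, mem_filter, mem_filter, mem_Ico, mem_Ico]
      constructor
      · rintro ⟨⟨a1, a2⟩, a3⟩
        exact ⟨⟨⟨a1, by omega⟩, a3⟩, a2⟩
      · rintro ⟨⟨⟨a1, a2⟩, a3⟩, a4⟩
        exact ⟨⟨a1, a4⟩, a3⟩
    have e3 : (Ico 1 k1).filter (fun w => ¬ R w y) = K.filter fun w => w < k1 := by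
      ext w
      rw [hKd, mem_filter, mem_filter, mem_filter, mem_Ico, mem_Ico]
      constructor
      · rintro ⟨⟨a1, a2⟩, a3⟩
        exact ⟨⟨⟨a1, by omega⟩, a3⟩, a2⟩
      · rintro ⟨⟨⟨a1, a2⟩, a3⟩, a4⟩
        exact ⟨⟨a1, a4⟩, a3⟩
    rw [e2, e3, n1] at e1
    omega
  -- the blue neighbours of `k0` above `k1`
  obtain ⟨C, hCd⟩ : ∃ C, C = (Ioc k1 N).filter fun w => ¬ R k0 w := ⟨_, rfl⟩
  rw [← hCd] at h3
  have hCm : ∀ w ∈ C, k1 < w ∧ w ≤ N ∧ ¬ R k0 w := by
    intro w hw
    rw [hCd, mem_filter, mem_Ioc] at hw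
    exact ⟨hw.1.1, hw.1.2, hw.2⟩
  have hCcl : ∀ x ∈ C, ∀ x' ∈ C, x < x' → R x x' := by
    refine hbl k0 q0.1 (by omega) C ?_
    intro w hw
    have := hCm w hw
    exact ⟨by omega, this.2.1, Or.inr ⟨by omega, this.2.2⟩⟩
  have s1 : (C.filter fun w => w < p).card ≤ (M.filter fun w => ¬ w < k1).card := by
    apply card_le_card
    intro w hw
    rw [mem_filter] at hw
    have hw1 := hCm w hw.1
    rw [mem_filter]
    refine ⟨?_, by omega⟩
    by_contra hno
    have hwK : w ∈ K := by
      rw [hKd, mem_filter, mem_Ico]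
      refine ⟨⟨by omega, hw.2⟩, fun hr => hno ?_⟩
      rw [hMd, mem_filter, mem_Ico]
      exact ⟨⟨by omega, hw.2⟩, hr⟩
    exact hw1.2.2 (hKcl k0 m0 w hwK (by omega))
  have s2 : (M.filter fun w => w < k1).card + (M.filter fun w => ¬ w < k1).card = M.card :=
    card_filter_add_card_filter_not _
  have s3 : (C.filter fun w => p < w).card ≤ be + 1 := by
    apply hcl
    · intro w hw
      rw [mem_filter] at hw
      exact ⟨hw.2, (hCm w hw.1).2.1⟩
    · intro x hx x' hx' hxx
      rw [mem_filter] at hx hx'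
      exact hCcl x hx.1 x' hx'.1 hxx
  have s4 : C.card ≤ (C.filter fun w => w < p).card + 1 + (C.filter fun w => p < w).card := by
    have t1 : C ⊆ (C.filter fun w => w < p) ∪ {p} ∪ (C.filter fun w => p < w) := by
      intro w hw
      rw [mem_union, mem_union, mem_filter, mem_filter, mem_singleton]
      rcases lt_trichotomy w p with h | h | h
      · exact Or.inl (Or.inl ⟨hw, h⟩)
      · exact Or.inl (Or.inr h)
      · exact Or.inr ⟨hw, h⟩
    have t2 := card_le_card t1
    have t3 := card_union_le ((C.filter fun w => w < p) ∪ {p}) (C.filter fun w => p < w)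
    have t4 := card_union_le (C.filter fun w => w < p) {p}
    rw [card_singleton] at t4
    omega
  omega

end Pool.Agent.K7.H89.OGS
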