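import Pool.Agent.K7.H50.OG.Basic

set_option autoImplicit false

namespace Pool.Agent.K7.H89.OGV

open Pool.Agent.K7.H50.OG

/-- the word `0 1^s 4^a 3^(k-a-1) 1^(p-2-s) 2 1^(k-p)` -/
def wV (k a p s x : ℕ) : Fin 5 :=
  if x ≤ 1 then 0 else if x ≤ s + 1 then 1 else if x ≤ s + 1 + a then 4 else
    if x ≤ s + k then 3 else if x = k + p - 1 then 2 else 1

variable {k a b p s : ℕ} {E : Gr}

theorem eLa {x y : ℕ} (ha : a < k) (h : rg (wV k a p s x) (wV k a p s y)) (h1 : s + 1 < x)
    (h2 : x ≤ s + k) (h3 : s + k < y) : y = k + p - 1 ∧ s + 1 + a < x := by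
  unfold wV at h
  rw [if_neg (show ¬ x ≤ 1 by omega), if_neg (show ¬ x ≤ s + 1 by omega),
    if_neg (show ¬ y ≤ 1 by omega), if_neg (show ¬ y ≤ s + 1 by omega),
    if_neg (show ¬ y ≤ s + 1 + a by omega), if_neg (show ¬ y ≤ s + k by omega)] at h
  by_cases p1 : x ≤ s + 1 + a
  · rw [if_pos p1] at h
    by_cases p2 : y = k + p - 1
    · rw [if_pos p2] at h
      exact absurd h (by decide)
    · rw [if_neg p2] at h
      exact absurd h (by decide)
  · rw [if_neg p1, if_pos h2] at h
    by_cases p2 : y = k + p - 1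
    · exact ⟨p2, by omega⟩
    · rw [if_neg p2] at h
      exact absurd h (by decide)

theorem eLb {x y : ℕ} (ha : a < k) (h : rg (wV k a p s x) (wV k a p s y)) (h1 : x ≤ s + 1)
    (h2 : s + 1 < y) (h3 : y ≤ s + k) : x ≤ 1 ∧ y ≤ s + 1 + a := by
  unfold wV at h
  rw [if_neg (show ¬ y ≤ 1 by omega), if_neg (show ¬ y ≤ s + 1 by omega)] at h
  by_cases p1 : x ≤ 1
  · rw [if_pos p1] at h
    by_cases p2 : y ≤ s + 1 + a
    · exact ⟨p1, p2⟩
    · rw [if_neg p2, if_pos h3] at h
      exact absurd h (by decide)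
  · rw [if_neg p1, if_pos h1] at h
    by_cases p2 : y ≤ s + 1 + a
    · rw [if_pos p2] at h
      exact absurd h (by decide)
    · rw [if_neg p2, if_pos h3] at h
      exact absurd h (by decide)

theorem eLc {x y : ℕ} (ha : a < k) (hs : s + 2 ≤ p) (h : rg (wV k a p s x) (wV k a p s y))
    (h1 : x ≤ 1) (h2 : y = k + p - 1) : False := by
  unfold wV at h
  rw [if_pos h1, if_neg (show ¬ y ≤ 1 by omega), if_neg (show ¬ y ≤ s + 1 by omega),
    if_neg (show ¬ y ≤ s + 1 + a by omega), if_neg (show ¬ y ≤ s + k by omega), if_pos h2] at h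
  exact absurd h (by decide)

/-- what a copy in the word `wV` looks like: `u..j` are the vertices of the classes `3`, `4` -/
structure Str (k a b p s : ℕ) (E : Gr) (f : ℕ → ℕ) (u j : ℕ) : Prop where
  bd : ∀ i, 1 ≤ i → i ≤ k → 1 ≤ f i ∧ f i ≤ 2 * k - 1
  mo : ∀ i i', 1 ≤ i → i < i' → i' ≤ k → f i < f i'
  u1 : 1 ≤ u
  uj : u ≤ j
  jk : j ≤ k
  pl : ∀ i, 1 ≤ i → i < u → f i ≤ s + 1
  pm : ∀ i, u ≤ i → i ≤ j → s + 1 < f i ∧ f i ≤ s + k
  pr : ∀ i, j < i → i ≤ k → s + k < f i
  us : u ≤ s + 2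
  us' : f 1 ≠ 1 → u ≤ s + 1
  La : ∀ i i', u ≤ i → i ≤ j → j < i' → i' ≤ k → E i i' → f i' = k + p - 1 ∧ s + 1 + a < f i
  Lb : ∀ i i', 1 ≤ i → i < u → u ≤ i' → i' ≤ j → E i i' → i = 1 ∧ f 1 = 1 ∧ f i' ≤ s + 1 + a
  Lc : ∀ i, 1 < i → i ≤ k → E 1 i → f 1 = 1 → f i ≠ k + p - 1
  ne : ∃ i, 1 ≤ i ∧ i ≤ k ∧ ¬ (u ≤ i ∧ i ≤ j)

theorem str (hk : 2 ≤ k) (ha : 1 ≤ a) (hak : a < k) (hp1 : 1 < p) (hpk : p < k) (hE : E 1 p)
    (hs : s + 2 ≤ p) (f : ℕ → ℕ)
    (hf1 : ∀ i, 1 ≤ i → i ≤ k → 1 ≤ f i ∧ f i ≤ 2 * k - 1)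
    (hf2 : ∀ i j, 1 ≤ i → i < j → j ≤ k → f i < f j)
    (hf3 : ∀ i j, 1 ≤ i → i < j → j ≤ k → E i j → rg (wV k a p s (f i)) (wV k a p s (f j))) :
    ∃ u j, Str k a b p s E f u j := by
  obtain ⟨u0, c1, c2, c3⟩ := cut hf2 (s + 1)
  obtain ⟨j, d1, d2, d3⟩ := cut hf2 (s + k)
  have b1 := hf1 1 le_rfl (by omega)
  have bk := hf1 k (by omega) le_rfl
  have hu0 : u0 ≤ s + 1 := by
    rcases Nat.eq_zero_or_pos u0 with h | h
    · omega
    · have g := mono_gap hf2 (le_refl 1) (show 1 ≤ u0 by omega) c1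
      have := c2 u0 h le_rfl
      omega
  have hu0' : f 1 ≠ 1 → u0 ≤ s := by
    intro h1
    rcases Nat.eq_zero_or_pos u0 with h | h
    · omega
    · have g := mono_gap hf2 (le_refl 1) (show 1 ≤ u0 by omega) c1
      have := c2 u0 h le_rfl
      omega
  -- the classes `3`, `4` are used
  have huj : u0 < j := by
    by_contra hcon
    -- no vertex in `(s+1, s+k]`
    have hnone : ∀ i, u0 < i → i ≤ k → s + k < f i := fun i h1 h2 => d3 i (by omega) h2
    have h1 : s + 1 ≤ u0 := by
      rcases Nat.lt_or_ge u0 k with h | h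
      · have := hnone (u0 + 1) (by omega) (by omega)
        have g := mono_gap hf2 (show 1 ≤ u0 + 1 by omega) (show u0 + 1 ≤ k by omega) le_rfl
        omega
      · omega
    have h2 : f 1 = 1 := by
      by_contra h
      have := hu0' h
      omega
    have h3 := hnone (s + 2) (by omega) (by omega)
    have g1 := mono_gap hf2 (show 1 ≤ s + 2 by omega) hs (show p ≤ k by omega)
    have g2 := mono_gap hf2 (show 1 ≤ p by omega) (show p ≤ k by omega) le_rfl
    have h4 : f p = k + p - 1 := by omega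
    exact eLc hak hs (hf3 1 p le_rfl hp1 (by omega) hE) (by omega) h4
  refine ⟨u0 + 1, j, hf1, hf2, by omega, by omega, d1, fun i h1 h2 => c2 i h1 (by omega),
    fun i h1 h2 => ⟨c3 i (by omega) (by omega), d2 i (by omega) h2⟩, fun i h1 h2 => d3 i h1 h2,
    by omega, fun h => by have := hu0' h; omega, ?_, ?_, ?_, ?_⟩
  · intro i i' h1 h2 h3 h4 h5
    exact eLa hak (hf3 i i' (by omega) (by omega) h4 h5) (c3 i (by omega) (by omega))
      (d2 i (by omega) h2) (d3 i' h3 h4)
  · intro i i' h1 h2 h3 h4 h5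
    have h6 := eLb hak (hf3 i i' h1 (by omega) (by omega) h5) (c2 i h1 (by omega))
      (c3 i' (by omega) (by omega)) (d2 i' (by omega) h4)
    have h7 : i = 1 := by
      by_contra h
      have := hf2 1 i le_rfl (by omega) (by omega)
      omega
    subst h7
    exact ⟨rfl, by omega, h6.2⟩
  · intro i h1 h2 h3 h4 h5
    exact eLc hak hs (hf3 1 i le_rfl h1 h2 h3) (by omega) h5
  · by_contra hcon
    push Not at hcon
    have h1 := hcon 1 le_rfl (by omega)
    have h2 := hcon k (by omega) le_rfl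
    have h3 := c3 1 (by omega) (by omega)
    have h4 := d2 k (by omega) (by omega)
    have g := mono_gap hf2 (le_refl 1) (show 1 ≤ k by omega) le_rfl
    omega

/-- the class `2` is unused: count -/
theorem Str.cnt {f : ℕ → ℕ} {u j : ℕ} (h : Str k a b p s E f u j) (hpk : p < k) (hs : s + 2 ≤ p)
    (hz : ∀ r, 1 ≤ r → r ≤ k → f r ≠ k + p - 1) : s + 2 ≤ j := by
  obtain ⟨c, c1, c2, c3⟩ := cut h.mo (k + p - 1)
  have hu1 := h.u1
  have huj := h.uj
  have hjk := h.jk
  have hm := (h.pm j huj le_rfl).2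
  have hcj : j ≤ c := by
    by_contra hcon
    have := c3 j (by omega) h.jk
    omega
  have e1 : k ≤ c + (k - p) := by
    rcases Nat.lt_or_ge c k with hc | hc
    · have := c3 (c + 1) (by omega) (by omega)
      have g := mono_gap h.mo (show 1 ≤ c + 1 by omega) (show c + 1 ≤ k by omega) le_rfl
      have := (h.bd k (by omega) le_rfl).2
      omega
    · omega
  have e2 : c ≤ j + (p - 2 - s) := by
    rcases Nat.lt_or_ge j c with hc | hc
    · have g1 := h.pr (j + 1) (by omega) (by omega)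
      have g2 := c2 c (by omega) le_rfl
      have g3 := hz c (by omega) c1
      have g := mono_gap h.mo (show 1 ≤ j + 1 by omega) (show j + 1 ≤ c by omega) c1
      omega
    · omega
  omega

/-- the class `2` is used: count -/
theorem Str.cnt2 {f : ℕ → ℕ} {u j r : ℕ} (h : Str k a b p s E f u j) (hpk : p < k)
    (hs : s + 2 ≤ p) (hr1 : 1 ≤ r) (hrk : r ≤ k) (hr : f r = k + p - 1) :
    p ≤ r ∧ j < r ∧ r ≤ j + 1 + (p - 2 - s) := by
  have hu1 := h.u1
  have huj := h.uj
  have hjk := h.jk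
  have hjr : j < r := by
    by_contra hcon
    have h1 := (h.pm j huj le_rfl).2
    rcases Nat.lt_or_ge r j with hc | hc
    · have := h.mo r j hr1 hc hjk
      omega
    · have : r = j := by omega
      subst this
      omega
  have g := mono_gap h.mo hr1 hrk le_rfl
  have g2 := (h.bd k (by omega) le_rfl).2
  have g3 := h.pr (j + 1) (by omega) (by omega)
  have g4 := mono_gap h.mo (show 1 ≤ j + 1 by omega) (show j + 1 ≤ r by omega) hrk
  omega

/-- the classes `0`, `2` are not both unused -/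
theorem Str.c1 {f : ℕ → ℕ} {u j : ℕ} (h : Str k a b p s E f u j) (hC : Con k E)
    (hx : f 1 ≠ 1) (hz : ∀ r, 1 ≤ r → r ≤ k → f r ≠ k + p - 1) : False := by
  have hu1 := h.u1
  have huj := h.uj
  have hjk := h.jk
  have hcl : ∀ i i', 1 ≤ i → i < i' → i' ≤ k → E i i' →
      ((u ≤ i ∧ i ≤ j) ↔ (u ≤ i' ∧ i' ≤ j)) := by
    intro i i' h1 h2 h3 h4
    by_cases p1 : u ≤ i ∧ i ≤ j
    · by_cases p2 : u ≤ i' ∧ i' ≤ j
      · simp [p1, p2]
      · exact absurd (h.La i i' p1.1 p1.2 (by omega) h3 h4).1 (hz i' (by omega) h3)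
    · by_cases p2 : u ≤ i' ∧ i' ≤ j
      · exact absurd (h.Lb i i' h1 (by omega) p2.1 p2.2 h4).2.1 hx
      · simp [p1, p2]
  obtain ⟨i, h1, h2, h3⟩ := h.ne
  exact h3 (hC.closed (fun i => u ≤ i ∧ i ≤ j) hcl (i := u) hu1 (by omega) ⟨le_rfl, huj⟩ i h1 h2)

/-- class `0` unused, `k` in class `2`: impossible -/
theorem Str.c2 {f : ℕ → ℕ} {u j : ℕ} (h : Str k a b p s E f u j) (hL : Lf k E a b)
    (hx : f 1 ≠ 1) (hr : f k = k + p - 1) (hpk : p < k) (hs : s + 2 ≤ p) : False := by
  have hu1 := h.u1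
  have huj := h.uj
  have hjk := h.jk
  obtain ⟨hab, hbk, ha1⟩ := (⟨hL.hab, hL.hb, hL.ha⟩ : a < b ∧ b < k ∧ 1 < a)
  have hk2 := h.cnt2 hpk hs (show 1 ≤ k by omega) le_rfl hr
  have hLa : ∀ i i', u ≤ i → i ≤ j → j < i' → i' ≤ k → E i i' → i' = k := by
    intro i i' h1 h2 h3 h4 h5
    by_contra hne
    have := h.mo i' k (by omega) (by omega) le_rfl
    have := (h.La i i' h1 h2 h3 h4 h5).1
    omega
  by_cases haI : u ≤ a ∧ a ≤ j
  · have hcl : ∀ i i', 1 ≤ i → i < i' → i' ≤ k → E i i' →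
        (((u ≤ i ∧ i ≤ j) ∨ i = k) ↔ ((u ≤ i' ∧ i' ≤ j) ∨ i' = k)) := by
      intro i i' h1 h2 h3 h4
      by_cases p1 : u ≤ i ∧ i ≤ j
      · by_cases p2 : u ≤ i' ∧ i' ≤ j
        · simp [p1, p2]
        · simp [p1, hLa i i' p1.1 p1.2 (by omega) h3 h4]
      · by_cases p2 : u ≤ i' ∧ i' ≤ j
        · exact absurd (h.Lb i i' h1 (by omega) p2.1 p2.2 h4).2.1 hx
        · by_cases p3 : i' = k
          · subst p3
            have := hL.uk i h1 h2 h4
            subst this
            exact absurd haI p1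
          · have : i ≠ k := by omega
            simp [p1, p2, p3, this]
    have hall := hL.con.closed (fun i => (u ≤ i ∧ i ≤ j) ∨ i = k) hcl (i := u) hu1 (by omega)
      (Or.inl ⟨le_rfl, huj⟩)
    have h1 : u = 1 := by
      have := hall 1 le_rfl (by omega)
      omega
    have h2 : j = k - 1 := by
      have := hall (k - 1) (by omega) (by omega)
      omega
    subst h1
    have g1 := (h.pm 1 le_rfl (by omega)).1
    have g2 := (h.pm (k - 1) (by omega) (by omega)).2
    have g3 := mono_gap h.mo (le_refl 1) (show 1 ≤ a by omega) (by omega)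
    have g4 := mono_gap h.mo (show 1 ≤ a by omega) (show a ≤ k - 1 by omega) (by omega)
    have g5 := (h.La a k haI.1 haI.2 (by omega) le_rfl hL.ek).2
    omega
  · have hcl : ∀ i i', 1 ≤ i → i < i' → i' ≤ k → E i i' →
        ((u ≤ i ∧ i ≤ j) ↔ (u ≤ i' ∧ i' ≤ j)) := by
      intro i i' h1 h2 h3 h4
      by_cases p1 : u ≤ i ∧ i ≤ j
      · by_cases p2 : u ≤ i' ∧ i' ≤ j
        · simp [p1, p2]
        · have h5 := hLa i i' p1.1 p1.2 (by omega) h3 h4
          subst h5
          have := hL.uk i h1 h2 h4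
          subst this
          exact absurd p1 haI
      · by_cases p2 : u ≤ i' ∧ i' ≤ j
        · exact absurd (h.Lb i i' h1 (by omega) p2.1 p2.2 h4).2.1 hx
        · simp [p1, p2]
    obtain ⟨i, h1, h2, h3⟩ := h.ne
    exact h3 (hL.con.closed (fun i => u ≤ i ∧ i ≤ j) hcl (i := u) hu1 (by omega)
      ⟨le_rfl, huj⟩ i h1 h2)

/-- `k` is mapped behind the class `2`: `a` is not in `u..j` -/
theorem Str.c3 {f : ℕ → ℕ} {u j r : ℕ} (h : Str k a b p s E f u j) (hL : Lf k E a b)
    (hr1 : 1 ≤ r) (hrk : r < k) (hr : f r = k + p - 1) (hpk : p < k) (hs : s + 2 ≤ p) :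
    ¬ (u ≤ a ∧ a ≤ j) := by
  rintro ⟨h1, h2⟩
  have h3 := h.cnt2 hpk hs hr1 hrk.le hr
  have h4 := (h.La a k h1 h2 (by omega) le_rfl hL.ek).1
  have := h.mo r k hr1 hrk le_rfl
  omega

/-- the edges that leave `u..j` -/
theorem Str.pend {f : ℕ → ℕ} {u j r : ℕ} (h : Str k a b p s E f u j)
    (hr1 : 1 ≤ r) (hrk : r ≤ k) (hr : f r = k + p - 1) : Pend E 2 (k - 1) u j r := by
  have hu1 := h.u1
  have huj := h.uj
  intro i i' h1 h2 h3 h4
  constructor
  · intro p1 p2
    have h5 := (h.La i i' p1.1 p1.2 (by omega) (by omega) h4).1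
    rcases lt_trichotomy i' r with h6 | h6 | h6
    · have := h.mo i' r (by omega) h6 hrk
      omega
    · exact h6
    · have := h.mo r i' hr1 h6 (by omega)
      omega
  · intro p1 p2
    have h5 := (h.Lb i i' (by omega) (by omega) p1.1 p1.2 h4).1
    omega

theorem Str.pend' {f : ℕ → ℕ} {u j r : ℕ} (h : Str k a b p s E f u j) (hx : f 1 ≠ 1)
    (hr1 : 1 ≤ r) (hrk : r ≤ k) (hr : f r = k + p - 1) : Pend E 1 k u j r := by
  have hu1 := h.u1
  have huj := h.uj
  intro i i' h1 h2 h3 h4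
  constructor
  · intro p1 p2
    have h5 := (h.La i i' p1.1 p1.2 (by omega) (by omega) h4).1
    rcases lt_trichotomy i' r with h6 | h6 | h6
    · have := h.mo i' r (by omega) h6 hrk
      omega
    · exact h6
    · have := h.mo r i' hr1 h6 (by omega)
      omega
  · intro p1 p2
    exact absurd (h.Lb i i' (by omega) (by omega) p1.1 p1.2 h4).2.1 hx

/-- `1` is a leaf, class `2` unused: impossible -/
theorem Str.c4 {f : ℕ → ℕ} {u j : ℕ} (h : Str k a b p s E f u j) (hL : Lf2 k E a b)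
    (hab : a + 2 ≤ b) (hz : ∀ r, 1 ≤ r → r ≤ k → f r ≠ k + p - 1) : False := by
  have hu1 := h.u1
  have huj := h.uj
  have hjk := h.jk
  by_cases hx : f 1 = 1
  · have h1u : 1 < u := by
      by_contra hcon
      have := (h.pm 1 (by omega) (by omega)).1
      omega
    by_cases hb : u ≤ b ∧ b ≤ j
    · have hcl : ∀ i i', 1 ≤ i → i < i' → i' ≤ k → E i i' →
          ((i ≠ 1 ∧ ¬ (u ≤ i ∧ i ≤ j)) ↔ (i' ≠ 1 ∧ ¬ (u ≤ i' ∧ i' ≤ j))) := by
        intro i i' h1 h2 h3 h4
        have hi' : i' ≠ 1 := by omega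
        by_cases p1 : u ≤ i ∧ i ≤ j
        · by_cases p2 : u ≤ i' ∧ i' ≤ j
          · simp [p1, p2]
          · exact absurd (h.La i i' p1.1 p1.2 (by omega) h3 h4).1 (hz i' (by omega) h3)
        · by_cases p2 : u ≤ i' ∧ i' ≤ j
          · have := (h.Lb i i' h1 (by omega) p2.1 p2.2 h4).1
            simp [p2, this]
          · by_cases p3 : i = 1
            · subst p3
              have := hL.v1 i' (by omega) h3 h4
              subst this
              exact absurd hb p2
            · simp [p1, p2, p3, hi']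
      by_cases hne : ∃ i, 1 ≤ i ∧ i ≤ k ∧ i ≠ 1 ∧ ¬ (u ≤ i ∧ i ≤ j)
      · obtain ⟨i, h1, h2, h3⟩ := hne
        have := hL.con.closed (fun i => i ≠ 1 ∧ ¬ (u ≤ i ∧ i ≤ j)) hcl h1 h2 h3 1 le_rfl (by omega)
        exact this.1 rfl
      · push Not at hne
        have h2 := hne 2 (by omega) (by omega) (by omega)
        have hb1 := hL.hb
        have g1 := (h.pm 2 h2.1 h2.2).1
        have g2 := mono_gap h.mo (show 1 ≤ 2 by omega) (show 2 ≤ b by omega) (by omega)
        have g3 := (h.Lb 1 b le_rfl h1u hb.1 hb.2 hL.e1).2.2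
        omega
    · have hcl : ∀ i i', 1 ≤ i → i < i' → i' ≤ k → E i i' →
          ((u ≤ i ∧ i ≤ j) ↔ (u ≤ i' ∧ i' ≤ j)) := by
        intro i i' h1 h2 h3 h4
        by_cases p1 : u ≤ i ∧ i ≤ j
        · by_cases p2 : u ≤ i' ∧ i' ≤ j
          · simp [p1, p2]
          · exact absurd (h.La i i' p1.1 p1.2 (by omega) h3 h4).1 (hz i' (by omega) h3)
        · by_cases p2 : u ≤ i' ∧ i' ≤ j
          · have := (h.Lb i i' h1 (by omega) p2.1 p2.2 h4).1
            subst this
            have := hL.v1 i' (by omega) h3 h4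
            subst this
            exact absurd p2 hb
          · simp [p1, p2]
      have := hL.con.closed (fun i => u ≤ i ∧ i ≤ j) hcl (i := u) hu1 (by omega) ⟨le_rfl, huj⟩ 1
        le_rfl (by omega)
      omega
  · exact h.c1 hL.con hx hz

/-- `1` is a leaf, `k` in class `2`: impossible -/
theorem Str.c5 {f : ℕ → ℕ} {u j : ℕ} (h : Str k a b p s E f u j) (hL : Lf2 k E a b)
    (hr : f k = k + p - 1) (hpk : p < k) (hs : s + 2 ≤ p) : False := by
  have hu1 := h.u1
  have huj := h.uj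
  have hjk := h.jk
  by_cases hx : f 1 = 1
  · have h1u : 1 < u := by
      by_contra hcon
      have := (h.pm 1 (by omega) (by omega)).1
      omega
    obtain ⟨hab, hbk, ha1⟩ := (⟨hL.hab, hL.hb, hL.ha⟩ : a < b ∧ b < k ∧ 1 < a)
    have hk2 := h.cnt2 hpk hs (show 1 ≤ k by omega) le_rfl hr
    have hLa : ∀ i i', u ≤ i → i ≤ j → j < i' → i' ≤ k → E i i' → i' = k := by
      intro i i' h1 h2 h3 h4 h5
      by_contra hne
      have := h.mo i' k (by omega) (by omega) le_rfl
      have := (h.La i i' h1 h2 h3 h4 h5).1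
      omega
    by_cases hb : u ≤ b ∧ b ≤ j
    · have haI : ¬ (u ≤ a ∧ a ≤ j) := by
        intro haI
        have g1 := (h.La a k haI.1 haI.2 (by omega) le_rfl hL.ek).2
        have g2 := (h.Lb 1 b le_rfl h1u hb.1 hb.2 hL.e1).2.2
        have := h.mo a b (by omega) hab (by omega)
        omega
      have hcl : ∀ i i', 1 ≤ i → i < i' → i' ≤ k → E i i' →
          ((i ≠ 1 ∧ ¬ (u ≤ i ∧ i ≤ j)) ↔ (i' ≠ 1 ∧ ¬ (u ≤ i' ∧ i' ≤ j))) := by
        intro i i' h1 h2 h3 h4
        have hi' : i' ≠ 1 := by omega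
        by_cases p1 : u ≤ i ∧ i ≤ j
        · by_cases p2 : u ≤ i' ∧ i' ≤ j
          · simp [p1, p2]
          · have h5 := hLa i i' p1.1 p1.2 (by omega) h3 h4
            subst h5
            have := hL.uk i h1 h2 h4
            subst this
            exact absurd p1 haI
        · by_cases p2 : u ≤ i' ∧ i' ≤ j
          · have := (h.Lb i i' h1 (by omega) p2.1 p2.2 h4).1
            simp [p2, this]
          · by_cases p3 : i = 1
            · subst p3
              have := hL.v1 i' (by omega) h3 h4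
              subst this
              exact absurd hb p2
            · simp [p1, p2, p3, hi']
      have := hL.con.closed (fun i => i ≠ 1 ∧ ¬ (u ≤ i ∧ i ≤ j)) hcl (i := k) (by omega) le_rfl
        ⟨by omega, by omega⟩ 1 le_rfl (by omega)
      exact this.1 rfl
    · by_cases haI : u ≤ a ∧ a ≤ j
      · have hcl : ∀ i i', 1 ≤ i → i < i' → i' ≤ k → E i i' →
            (((u ≤ i ∧ i ≤ j) ∨ i = k) ↔ ((u ≤ i' ∧ i' ≤ j) ∨ i' = k)) := by
          intro i i' h1 h2 h3 h4
          by_cases p1 : u ≤ i ∧ i ≤ j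
          · by_cases p2 : u ≤ i' ∧ i' ≤ j
            · simp [p1, p2]
            · simp [p1, hLa i i' p1.1 p1.2 (by omega) h3 h4]
          · by_cases p2 : u ≤ i' ∧ i' ≤ j
            · have := (h.Lb i i' h1 (by omega) p2.1 p2.2 h4).1
              subst this
              have := hL.v1 i' (by omega) h3 h4
              subst this
              exact absurd p2 hb
            · by_cases p3 : i' = k
              · subst p3
                have := hL.uk i h1 h2 h4
                subst this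
                exact absurd haI p1
              · have : i ≠ k := by omega
                simp [p1, p2, p3, this]
        have := hL.con.closed (fun i => (u ≤ i ∧ i ≤ j) ∨ i = k) hcl (i := u) hu1 (by omega)
          (Or.inl ⟨le_rfl, huj⟩) 1 le_rfl (by omega)
        omega
      · have hcl : ∀ i i', 1 ≤ i → i < i' → i' ≤ k → E i i' →
            ((u ≤ i ∧ i ≤ j) ↔ (u ≤ i' ∧ i' ≤ j)) := by
          intro i i' h1 h2 h3 h4
          by_cases p1 : u ≤ i ∧ i ≤ j
          · by_cases p2 : u ≤ i' ∧ i' ≤ j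
            · simp [p1, p2]
            · have h5 := hLa i i' p1.1 p1.2 (by omega) h3 h4
              subst h5
              have := hL.uk i h1 h2 h4
              subst this
              exact absurd p1 haI
          · by_cases p2 : u ≤ i' ∧ i' ≤ j
            · have := (h.Lb i i' h1 (by omega) p2.1 p2.2 h4).1
              subst this
              have := hL.v1 i' (by omega) h3 h4
              subst this
              exact absurd p2 hb
            · simp [p1, p2]
        have := hL.con.closed (fun i => u ≤ i ∧ i ≤ j) hcl (i := u) hu1 (by omega)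
          ⟨le_rfl, huj⟩ 1 le_rfl (by omega)
        omega
  · exact h.c2 hL.toLf hx hr hpk hs

/-- `1` is a leaf: the class `2` is used by a vertex `< k` -/
theorem Str.c6 {f : ℕ → ℕ} {u j : ℕ} (h : Str k a b p s E f u j) (hL : Lf2 k E a b)
    (hab : a + 2 ≤ b) (hpk : p < k) (hs : s + 2 ≤ p) :
    ∃ r, 1 ≤ r ∧ r < k ∧ f r = k + p - 1 ∧ p ≤ r ∧ j < r ∧ r ≤ j + 1 + (p - 2 - s) ∧
      ¬ (u ≤ a ∧ a ≤ j) := by
  by_cases hz : ∃ r, 1 ≤ r ∧ r ≤ k ∧ f r = k + p - 1
  · obtain ⟨r, h1, h2, h3⟩ := hz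
    have h4 := h.cnt2 hpk hs h1 h2 h3
    have h5 : r < k := by
      by_contra hcon
      have : r = k := by omega
      subst this
      exact h.c5 hL h3 hpk hs
    exact ⟨r, h1, h5, h3, h4.1, h4.2.1, h4.2.2, h.c3 hL.toLf h1 h5 h3 hpk hs⟩
  · push Not at hz
    exact (h.c4 hL hab hz).elim

/-- unpack a copy -/
theorem dead_or {Q : Prop} (w : ℕ → Fin 5)
    (h : ∀ f : ℕ → ℕ, (∀ i, 1 ≤ i → i ≤ k → 1 ≤ f i ∧ f i ≤ 2 * k - 1) →
      (∀ i j, 1 ≤ i → i < j → j ≤ k → f i < f j) →
      (∀ i j, 1 ≤ i → i < j → j ≤ k → E i j → rg (w (f i)) (w (f j))) → Q) : Dead k E ∨ Q := by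
  by_cases hc : Cop k (2 * k - 1) E (fun x y => rg (w x) (w y))
  · obtain ⟨f, h1, h2, h3⟩ := hc
    exact Or.inr (h f h1 h2 h3)
  · exact Or.inl ⟨w, hc⟩

theorem stVB : StVB := by
  intro k E a b hL hab
  obtain ⟨hab', hbk, ha1⟩ := (⟨hL.hab, hL.hb, hL.ha⟩ : a < b ∧ b < k ∧ 1 < a)
  refine dead_or (wV k a b (a - 1)) ?_
  intro f hf1 hf2 hf3
  obtain ⟨u, j, h⟩ := str (b := b) (by omega) (by omega) (by omega) (by omega) hbk hL.e1
    (show a - 1 + 2 ≤ b by omega) f hf1 hf2 hf3
  obtain ⟨r, r1, r2, r3, r4, r5, r6, r7⟩ := h.c6 hL hab hbk (by omega)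
  have hus := h.us
  by_cases hx : f 1 = 1
  · have hrb : r ≠ b := by
      rintro rfl
      exact h.Lc r (by omega) (by omega) hL.e1 hx r3
    have hu : u = a + 1 := by omega
    have hp := h.pend r1 r2.le r3
    rw [hu] at hp
    exact ⟨j, r, by omega, r5, by omega, r2, hp⟩
  · have := h.us' hx
    omega

theorem stVC : StVC := by
  intro k E a b hL hab
  obtain ⟨hab', hbk, ha1⟩ := (⟨hL.hab, hL.hb, hL.ha⟩ : a < b ∧ b < k ∧ 1 < a)
  refine dead_or (wV k a b (b - 2)) ?_
  intro f hf1 hf2 hf3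
  obtain ⟨u, j, h⟩ := str (b := b) (by omega) (by omega) (by omega) (by omega) hbk hL.e1
    (show b - 2 + 2 ≤ b by omega) f hf1 hf2 hf3
  obtain ⟨r, r1, r2, r3, r4, r5, r6, r7⟩ := h.c6 hL hab hbk (by omega)
  have hus := h.us
  have hj : j = r - 1 := by omega
  have hau : a < u := by omega
  by_cases hx : f 1 = 1
  · right
    have hrb : r ≠ b := by
      rintro rfl
      exact h.Lc r (by omega) (by omega) hL.e1 hx r3
    have hp := h.pend r1 r2.le r3
    have g2 := (h.Lb 1 b le_rfl (by omega) (by omega) (by omega) hL.e1).2.2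
    rw [hj] at hp
    refine ⟨u, r, by omega, by omega, by omega, r2, hp, ?_⟩
    intro x hx1 hx2 hE
    have g1 := (h.La x r hx1 (by omega) r5 r2.le hE).2
    rcases Nat.lt_or_ge x b with h3 | h3
    · have := h.mo x b (by omega) h3 (by omega)
      omega
    · have : x = b := by omega
      subst this
      omega
  · left
    have hu := h.us' hx
    have hrb : r = b := by
      by_contra hne
      exact hx (h.Lb 1 b le_rfl (by omega) (by omega) (by omega) hL.e1).2.1
    have hp := h.pend' hx r1 r2.le r3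
    rw [hj, hrb] at hp
    exact ⟨u, by omega, by omega, hp⟩

/-- the common part of V2 and VA -/
theorem core2 (hL : Lf k E a b) (hp1 : 1 < p) (hpk : p < k) (hE : E 1 p) {m : ℕ} (hm1 : a + 2 ≤ m)
    (hmk : m < k) (hEm : E 1 m) (f : ℕ → ℕ)
    (hf1 : ∀ i, 1 ≤ i → i ≤ k → 1 ≤ f i ∧ f i ≤ 2 * k - 1)
    (hf2 : ∀ i j, 1 ≤ i → i < j → j ≤ k → f i < f j)
    (hf3 : ∀ i j, 1 ≤ i → i < j → j ≤ k → E i j →
      rg (wV k a p (a - 2) (f i)) (wV k a p (a - 2) (f j))) :
    ∃ u, 1 ≤ u ∧ u < a ∧ Pend E 1 k u (a - 1) p := by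
  obtain ⟨hab', hbk, ha1⟩ := (⟨hL.hab, hL.hb, hL.ha⟩ : a < b ∧ b < k ∧ 1 < a)
  have hbp := hL.u1 p hp1 hpk.le hE
  have hs : a - 2 + 2 ≤ p := by omega
  obtain ⟨u, j, h⟩ := str (b := b) (by omega) (by omega) (by omega) hp1 hpk hE hs f hf1 hf2 hf3
  have hu1 := h.u1
  have huj := h.uj
  have hjk := h.jk
  have hus := h.us
  by_cases hz : ∃ r, 1 ≤ r ∧ r ≤ k ∧ f r = k + p - 1
  · obtain ⟨r, r1, r2, r3⟩ := hz
    have r4 := h.cnt2 hpk hs r1 r2 r3
    rcases Nat.lt_or_ge r k with hrk | hrk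
    · have h5 := h.c3 hL r1 hrk r3 hpk hs
      have hj : j = a - 1 := by
        by_cases hx : f 1 = 1
        · omega
        · have := h.us' hx
          omega
      have hrp : r = p := by omega
      subst hrp
      by_cases hx : f 1 = 1
      · exact (h.Lc r (by omega) (by omega) hE hx r3).elim
      · have hp := h.pend' hx r1 r2 r3
        rw [hj] at hp
        exact ⟨u, hu1, by omega, hp⟩
    · have hrk' : r = k := by omega
      subst hrk'
      by_cases hx : f 1 = 1
      · exfalso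
        have h1u : 1 < u := by
          by_contra hcon
          have := (h.pm 1 (by omega) (by omega)).1
          omega
        have haI : u ≤ a ∧ a ≤ j := by omega
        have g1 := (h.La a r haI.1 haI.2 (by omega) le_rfl hL.ek).2
        have hcl : ∀ i i', 1 ≤ i → i < i' → i' ≤ r → E i i' →
            (((u ≤ i ∧ i ≤ j) ∨ i = r) ↔ ((u ≤ i' ∧ i' ≤ j) ∨ i' = r)) := by
          intro i i' h1 h2 h3 h4
          by_cases p1 : u ≤ i ∧ i ≤ j
          · by_cases p2 : u ≤ i' ∧ i' ≤ j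
            · simp [p1, p2]
            · have h5 := (h.La i i' p1.1 p1.2 (by omega) h3 h4).1
              have h6 : i' = r := by
                by_contra hne
                have := h.mo i' r (by omega) (by omega) le_rfl
                omega
              simp [p1, h6]
          · by_cases p2 : u ≤ i' ∧ i' ≤ j
            · have h5 := h.Lb i i' h1 (by omega) p2.1 p2.2 h4
              obtain ⟨rfl, _, h6⟩ := h5
              have h7 := hL.u1 i' (by omega) h3 h4
              have := h.mo a i' (by omega) (by omega) h3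
              omega
            · by_cases p3 : i' = r
              · subst p3
                have := hL.uk i h1 h2 h4
                subst this
                exact absurd haI p1
              · have : i ≠ r := by omega
                simp [p1, p2, p3, this]
        have := hL.con.closed (fun i => (u ≤ i ∧ i ≤ j) ∨ i = r) hcl (i := u) hu1 (by omega)
          (Or.inl ⟨le_rfl, huj⟩) 1 le_rfl (by omega)
        omega
      · exact (h.c2 hL hx r3 hpk hs).elim
  · push Not at hz
    exfalso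
    by_cases hx : f 1 = 1
    · have h1u : 1 < u := by
        by_contra hcon
        have := (h.pm 1 (by omega) (by omega)).1
        omega
      have hj := h.cnt hpk hs hz
      have haI : u ≤ a ∧ a ≤ j := by omega
      have hjk' : j = k := by
        by_contra hne
        exact hz k (by omega) le_rfl (h.La a k haI.1 haI.2 (by omega) le_rfl hL.ek).1
      have hu2 : u = 2 := by
        by_contra hne
        have hcl : ∀ i i', 1 ≤ i → i < i' → i' ≤ k → E i i' →
            ((1 < i ∧ i < u) ↔ (1 < i' ∧ i' < u)) := by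
          intro i i' h1 h2 h3 h4
          by_cases p1 : i = 1
          · subst p1
            have := hL.u1 i' (by omega) h3 h4
            omega
          · by_cases p2 : i < u
            · by_cases p3 : i' < u
              · omega
              · exact absurd (h.Lb i i' h1 p2 (by omega) (by omega) h4).1 p1
            · omega
        have := hL.con.closed (fun i => 1 < i ∧ i < u) hcl (i := 2) (by omega) (by omega)
          ⟨by omega, by omega⟩ 1 le_rfl (by omega)
        omega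
      subst hu2
      have g1 := (h.pm 2 le_rfl (by omega)).1
      have g2 := mono_gap h.mo (show 1 ≤ 2 by omega) (show 2 ≤ m by omega) (by omega)
      have g3 := (h.Lb 1 m le_rfl (by omega) (by omega) (by omega) hEm).2.2
      omega
    · exact h.c1 hL.con hx hz

theorem stVA : StVA := by
  intro k E a b hL hab
  have hbk := hL.hb
  refine dead_or (wV k a b (a - 2)) ?_
  intro f hf1 hf2 hf3
  exact core2 hL.toLf (by omega) hbk hL.e1 hab hbk hL.e1 f hf1 hf2 hf3

theorem stV2 : StV2 := by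
  intro k E a b p m hL hp1 hpk hm1 hmk hEp hEm hpm
  have hbp := hL.u1 p hp1 hpk.le hEp
  have hbm := hL.u1 m hm1 hmk.le hEm
  have hab := hL.hab
  refine dead_or (wV k a p (a - 2)) ?_
  intro f hf1 hf2 hf3
  have key : ∃ u, 1 ≤ u ∧ u < a ∧ Pend E 1 k u (a - 1) p := by
    rcases Nat.lt_or_ge p m with h | h
    · exact core2 hL hp1 hpk hEp (m := m) (by omega) hmk hEm f hf1 hf2 hf3
    · exact core2 hL hp1 hpk hEp (m := p) (by omega) hpk hEp f hf1 hf2 hf3
  obtain ⟨u, h1, h2, h3⟩ := key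
  refine ⟨u, ?_, h2, h3⟩
  by_contra hcon
  have : u = 1 := by omega
  subst this
  exact hpm ((h3 1 m le_rfl hm1 hmk.le hEm).1 ⟨le_rfl, by omega⟩ (by omega)).symm

/-- JOB MIR -/
theorem stMir : StMir := by
  rintro k E ⟨c, hc⟩
  refine ⟨fun x => c (2 * k - x), ?_⟩
  rintro ⟨f, h1, h2, h3⟩
  apply hc
  refine ⟨fun i => 2 * k - f (k + 1 - i), ?_, ?_, ?_⟩
  · intro i hi hik
    have := h1 (k + 1 - i) (by omega) (by omega)
    simp only
    omega
  · intro i j hi hij hj
    have g1 := h1 (k + 1 - i) (by omega) (by omega)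
    have g2 := h1 (k + 1 - j) (by omega) (by omega)
    have g3 := h2 (k + 1 - j) (k + 1 - i) (by omega) (by omega) (by omega)
    simp only
    omega
  · intro i j hi hij hj hE
    have g1 := h1 (k + 1 - i) (by omega) (by omega)
    have g2 := h1 (k + 1 - j) (by omega) (by omega)
    have g3 := h3 (k + 1 - j) (k + 1 - i) (by omega) (by omega) (by omega) hE
    simp only at g3 ⊢
    unfold rg at g3 ⊢
    tauto

end Pool.Agent.K7.H89.OGV
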