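import Pool.Agent.K7.H50.OG.Basic

set_option autoImplicit false

namespace Pool.Agent.K7.H89.OGW

open Pool.Agent.K7.H50.OG

/-- a word with five runs -/
def w5 (t1 t2 t3 t4 : ℕ) (c0 c1 c2 c3 c4 : Fin 5) (x : ℕ) : Fin 5 :=
  if x ≤ t1 then c0 else if x ≤ t2 then c1 else if x ≤ t3 then c2 else if x ≤ t4 then c3 else c4

theorem cl5 (t1 t2 t3 t4 N : ℕ) (c0 c1 c2 c3 c4 : Fin 5) (x : ℕ) (h : 1 ≤ x ∧ x ≤ N) :
    (0 < x ∧ x ≤ t1 ∧ w5 t1 t2 t3 t4 c0 c1 c2 c3 c4 x = c0) ∨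
    (t1 < x ∧ x ≤ t2 ∧ w5 t1 t2 t3 t4 c0 c1 c2 c3 c4 x = c1) ∨
    (t2 < x ∧ x ≤ t3 ∧ w5 t1 t2 t3 t4 c0 c1 c2 c3 c4 x = c2) ∨
    (t3 < x ∧ x ≤ t4 ∧ w5 t1 t2 t3 t4 c0 c1 c2 c3 c4 x = c3) ∨
    (t4 < x ∧ x ≤ N ∧ w5 t1 t2 t3 t4 c0 c1 c2 c3 c4 x = c4) := by
  unfold w5
  split_ifs with h1 h2 h3 h4
  · exact Or.inl ⟨by omega, h1, rfl⟩
  · exact Or.inr (Or.inl ⟨by omega, h2, rfl⟩)
  · exact Or.inr (Or.inr (Or.inl ⟨by omega, h3, rfl⟩))
  · exact Or.inr (Or.inr (Or.inr (Or.inl ⟨by omega, h4, rfl⟩)))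
  · exact Or.inr (Or.inr (Or.inr (Or.inr ⟨by omega, h.2, rfl⟩)))

theorem stA : StA := by
  rintro k E c hC h1 h2 h3 h4 ⟨i, j, hi, hic, hcj, hj, hij⟩
  refine ⟨w5 (c - 1) c (2 * c - 1) (c + k - 1) 0 1 3 2 4, ?_⟩
  rintro ⟨f, hf1, hf2, hf3⟩
  have cl := cl5 (c - 1) c (2 * c - 1) (c + k - 1) (2 * k - 1) 0 1 3 2 4
  generalize w5 (c - 1) c (2 * c - 1) (c + k - 1) 0 1 3 2 4 = w at hf3 cl
  have b1 := hf1 1 le_rfl (by omega)
  have bc := hf1 c (by omega) (by omega)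
  have bk := hf1 k (by omega) le_rfl
  have bi := hf1 i (by omega) (by omega)
  have bj := hf1 j (by omega) (by omega)
  have g1 := mono_gap hf2 (le_refl 1) (show 1 ≤ c by omega) (by omega)
  have g2 := mono_gap hf2 (show 1 ≤ c by omega) (show c ≤ k by omega) le_rfl
  have g3 := mono_gap hf2 hi (show i ≤ c by omega) (by omega)
  have g4 := mono_gap hf2 (show 1 ≤ c by omega) (show c ≤ j by omega) hj
  have g5 := mono_gap hf2 (show 1 ≤ j by omega) hj le_rfl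
  have g6 := mono_gap hf2 le_rfl hi (show i ≤ k by omega)
  have e1 := hf3 1 c le_rfl h1 (by omega) h3
  have e2 := hf3 c k (by omega) h2 le_rfl h4
  have e3 := hf3 i j hi (by omega) hj hij
  simp only at e1 e2 e3
  rcases cl (f c) bc with ⟨p1, p2, pc⟩ | ⟨p1, p2, pc⟩ | ⟨p1, p2, pc⟩ | ⟨p1, p2, pc⟩ | ⟨p1, p2, pc⟩
  · omega
  · rw [pc] at e2
    rcases cl (f k) bk with ⟨q1, q2, qc⟩ | ⟨q1, q2, qc⟩ | ⟨q1, q2, qc⟩ | ⟨q1, q2, qc⟩ | ⟨q1, q2, qc⟩ <;>
      rw [qc] at e2 <;> first | exact absurd e2 (by decide) | skip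
    · omega
    · omega
    · rcases cl (f i) bi with ⟨r1, r2, rc⟩ | ⟨r1, r2, rc⟩ | ⟨r1, r2, rc⟩ | ⟨r1, r2, rc⟩ | ⟨r1, r2, rc⟩ <;>
        first | omega | skip
      rcases cl (f j) bj with ⟨s1, s2, sc⟩ | ⟨s1, s2, sc⟩ | ⟨s1, s2, sc⟩ | ⟨s1, s2, sc⟩ | ⟨s1, s2, sc⟩ <;>
        first | omega | skip
      all_goals
        rw [rc, sc] at e3
        exact absurd e3 (by decide)
  · rw [pc] at e1
    rcases cl (f 1) b1 with ⟨q1, q2, qc⟩ | ⟨q1, q2, qc⟩ | ⟨q1, q2, qc⟩ | ⟨q1, q2, qc⟩ | ⟨q1, q2, qc⟩ <;>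
      rw [qc] at e1 <;> first | exact absurd e1 (by decide) | omega
  · rw [pc] at e2
    rcases cl (f k) bk with ⟨q1, q2, qc⟩ | ⟨q1, q2, qc⟩ | ⟨q1, q2, qc⟩ | ⟨q1, q2, qc⟩ | ⟨q1, q2, qc⟩ <;>
      rw [qc] at e2 <;> first | exact absurd e2 (by decide) | omega
  · omega

theorem stE : StE := by
  intro k E a b hC h1 h2 h3 h4 h5 h6
  refine ⟨w5 1 (k - 1) k (2 * k - 2) 0 1 2 3 4, ?_⟩
  rintro ⟨f, hf1, hf2, hf3⟩
  have cl := cl5 1 (k - 1) k (2 * k - 2) (2 * k - 1) 0 1 2 3 4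
  generalize w5 1 (k - 1) k (2 * k - 2) 0 1 2 3 4 = w at hf3 cl
  have b1 := hf1 1 le_rfl (by omega)
  have ba := hf1 a (by omega) (by omega)
  have bb := hf1 b (by omega) (by omega)
  have bk := hf1 k (by omega) le_rfl
  have g1 := mono_gap hf2 (le_refl 1) (show 1 ≤ a by omega) (by omega)
  have g2 := mono_gap hf2 (show 1 ≤ a by omega) (show a ≤ b by omega) (by omega)
  have g3 := mono_gap hf2 (show 1 ≤ b by omega) (show b ≤ k by omega) le_rfl
  have g4 := mono_gap hf2 (le_refl 1) (show 1 ≤ k by omega) le_rfl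
  have e1 := hf3 1 k le_rfl (by omega) le_rfl h4
  have e2 := hf3 1 b le_rfl (by omega) (by omega) h5
  have e3 := hf3 a k (by omega) (by omega) le_rfl h6
  simp only at e1 e2 e3
  rcases cl (f 1) b1 with ⟨p1, p2, pc⟩ | ⟨p1, p2, pc⟩ | ⟨p1, p2, pc⟩ | ⟨p1, p2, pc⟩ | ⟨p1, p2, pc⟩ <;>
    rcases cl (f k) bk with ⟨q1, q2, qc⟩ | ⟨q1, q2, qc⟩ | ⟨q1, q2, qc⟩ | ⟨q1, q2, qc⟩ | ⟨q1, q2, qc⟩ <;>
      rw [pc, qc] at e1 <;> first | omega | exact absurd e1 (by decide) | skip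
  rcases cl (f b) bb with ⟨r1, r2, rc⟩ | ⟨r1, r2, rc⟩ | ⟨r1, r2, rc⟩ | ⟨r1, r2, rc⟩ | ⟨r1, r2, rc⟩ <;>
    rw [pc, rc] at e2 <;> first | omega | exact absurd e2 (by decide) | skip
  rcases cl (f a) ba with ⟨s1, s2, sc⟩ | ⟨s1, s2, sc⟩ | ⟨s1, s2, sc⟩ | ⟨s1, s2, sc⟩ | ⟨s1, s2, sc⟩ <;>
    rw [sc, qc] at e3 <;> first | omega | exact absurd e3 (by decide)

theorem stB : StB := by
  intro k E a b hC hJ h1 h2 h3 h4 h5
  refine ⟨w5 (b - 1) (a + b - 2) (a + b - 1) (a + k - 1) 0 2 3 4 1, ?_⟩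
  rintro ⟨f, hf1, hf2, hf3⟩
  have cl := cl5 (b - 1) (a + b - 2) (a + b - 1) (a + k - 1) (2 * k - 1) 0 2 3 4 1
  generalize w5 (b - 1) (a + b - 2) (a + b - 1) (a + k - 1) 0 2 3 4 1 = w at hf3 cl
  have b1 := hf1 1 le_rfl (by omega)
  have ba := hf1 a (by omega) (by omega)
  have bb := hf1 b (by omega) (by omega)
  have bk := hf1 k (by omega) le_rfl
  have g1 := mono_gap hf2 (le_refl 1) (show 1 ≤ b by omega) (by omega)
  have g2 := mono_gap hf2 (show 1 ≤ b by omega) (show b ≤ a by omega) (by omega)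
  have g3 := mono_gap hf2 (show 1 ≤ a by omega) (show a ≤ k by omega) le_rfl
  have g4 := mono_gap hf2 (le_refl 1) (show 1 ≤ k by omega) le_rfl
  have e1 := hf3 1 b le_rfl (by omega) (by omega) h4
  have e2 := hf3 a k (by omega) (by omega) le_rfl h5
  simp only at e1 e2
  -- the vertex `1` is not in the first run, `k` is not in the last run
  have key : b - 1 < f 1 ∧ f k ≤ a + k - 1 := by
    by_contra hcon
    rcases cl (f 1) b1 with ⟨p1, p2, pc⟩ | ⟨p1, p2, pc⟩ | ⟨p1, p2, pc⟩ | ⟨p1, p2, pc⟩ | ⟨p1, p2, pc⟩ <;>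
    rcases cl (f b) bb with ⟨q1, q2, qc⟩ | ⟨q1, q2, qc⟩ | ⟨q1, q2, qc⟩ | ⟨q1, q2, qc⟩ | ⟨q1, q2, qc⟩ <;>
    (first | (exfalso; omega) | skip) <;>
    rw [pc, qc] at e1 <;> (first | exact absurd e1 (by decide) | skip) <;>
    rcases cl (f a) ba with ⟨r1, r2, rc⟩ | ⟨r1, r2, rc⟩ | ⟨r1, r2, rc⟩ | ⟨r1, r2, rc⟩ | ⟨r1, r2, rc⟩ <;>
    (first | (exfalso; omega) | skip) <;>
    rcases cl (f k) bk with ⟨s1, s2, sc⟩ | ⟨s1, s2, sc⟩ | ⟨s1, s2, sc⟩ | ⟨s1, s2, sc⟩ | ⟨s1, s2, sc⟩ <;>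
    (first | (exfalso; omega) | skip) <;>
    rw [rc, sc] at e2 <;> (first | exact absurd e2 (by decide) | skip)
  obtain ⟨k1, k2⟩ := key
  -- the classes of all vertices are `2`, `3`, `4`
  have cls : ∀ i, 1 ≤ i → i ≤ k → (f i ≤ a + b - 2 ∧ w (f i) = 2) ∨
      (f i = a + b - 1 ∧ w (f i) = 3) ∨ (a + b - 1 < f i ∧ w (f i) = 4) := by
    intro i hi hik
    have bi := hf1 i hi hik
    have gi := mono_gap hf2 le_rfl hi hik
    have gi' := mono_gap hf2 hi hik le_rfl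
    rcases cl (f i) bi with ⟨r1, r2, rc⟩ | ⟨r1, r2, rc⟩ | ⟨r1, r2, rc⟩ | ⟨r1, r2, rc⟩ | ⟨r1, r2, rc⟩
    · omega
    · exact Or.inl ⟨r2, rc⟩
    · exact Or.inr (Or.inl ⟨by omega, rc⟩)
    · exact Or.inr (Or.inr ⟨r1, rc⟩)
    · omega
  by_cases hx : ∃ c, 1 ≤ c ∧ c ≤ k ∧ f c = a + b - 1
  · obtain ⟨c, hc1, hck, hfc⟩ := hx
    have gc := mono_gap hf2 le_rfl hc1 hck
    have gc' := mono_gap hf2 hc1 hck le_rfl
    have hc2 : 1 < c := by
      by_contra hcon
      have : c = 1 := by omega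
      subst this
      omega
    have hc3 : c < k := by
      by_contra hcon
      have : c = k := by omega
      subst this
      omega
    obtain ⟨i, j, hi, hic, hcj, hj, hij⟩ := hJ c hc2 hc3
    have e3 := hf3 i j hi (by omega) hj hij
    simp only at e3
    have m1 := hf2 i c hi hic hck
    have m2 := hf2 c j hc1 hcj hj
    rcases cls i hi (by omega) with ⟨r1, rc⟩ | ⟨r1, rc⟩ | ⟨r1, rc⟩
    · rcases cls j (by omega) hj with ⟨s1, sc⟩ | ⟨s1, sc⟩ | ⟨s1, sc⟩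
      · omega
      · omega
      · rw [rc, sc] at e3
        exact absurd e3 (by decide)
    · omega
    · omega
  · have hcl : ∀ i j, 1 ≤ i → i < j → j ≤ k → E i j → (w (f i) = 2 ↔ w (f j) = 2) := by
      intro i j hi hij hj hE
      have e3 := hf3 i j hi (by omega) hj hE
      simp only at e3
      rcases cls i hi (by omega) with ⟨r1, rc⟩ | ⟨r1, rc⟩ | ⟨r1, rc⟩
      · rcases cls j (by omega) hj with ⟨s1, sc⟩ | ⟨s1, sc⟩ | ⟨s1, sc⟩
        · simp [rc, sc]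
        · exact absurd ⟨j, by omega, hj, s1⟩ hx
        · rw [rc, sc] at e3
          exact absurd e3 (by decide)
      · exact absurd ⟨i, hi, by omega, r1⟩ hx
      · rcases cls j (by omega) hj with ⟨s1, sc⟩ | ⟨s1, sc⟩ | ⟨s1, sc⟩
        · rw [rc, sc] at e3
          exact absurd e3 (by decide)
        · exact absurd ⟨j, by omega, hj, s1⟩ hx
        · rw [rc, sc]
    rcases cls 1 le_rfl (by omega) with ⟨r1, rc⟩ | ⟨r1, rc⟩ | ⟨r1, rc⟩
    · have := hC.closed (fun i => w (f i) = 2) hcl le_rfl (by omega) rc k (by omega) le_rfl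
      rcases cls k (by omega) le_rfl with ⟨s1, sc⟩ | ⟨s1, sc⟩ | ⟨s1, sc⟩
      · omega
      · exact hx ⟨k, by omega, le_rfl, s1⟩
      · rw [sc] at this
        exact absurd this (by decide)
    · exact hx ⟨1, le_rfl, by omega, r1⟩
    · omega

theorem stC : StC := by
  intro k E u v hC h1 h2 h3 h4 h5 h6
  refine ⟨w5 1 (k - 1) (k + v - 2) (k + v - 1) 2 1 3 0 4, ?_⟩
  rintro ⟨f, hf1, hf2, hf3⟩
  have cl := cl5 1 (k - 1) (k + v - 2) (k + v - 1) (2 * k - 1) 2 1 3 0 4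
  generalize w5 1 (k - 1) (k + v - 2) (k + v - 1) 2 1 3 0 4 = w at hf3 cl
  have b1 := hf1 1 le_rfl (by omega)
  have bk := hf1 k (by omega) le_rfl
  have g4 := mono_gap hf2 (le_refl 1) (show 1 ≤ k by omega) le_rfl
  have e1 := hf3 1 k le_rfl (by omega) le_rfl h1
  simp only at e1
  rcases cl (f 1) b1 with ⟨p1, p2, pc⟩ | ⟨p1, p2, pc⟩ | ⟨p1, p2, pc⟩ | ⟨p1, p2, pc⟩ | ⟨p1, p2, pc⟩ <;>
    rcases cl (f k) bk with ⟨q1, q2, qc⟩ | ⟨q1, q2, qc⟩ | ⟨q1, q2, qc⟩ | ⟨q1, q2, qc⟩ | ⟨q1, q2, qc⟩ <;>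
    (first | (exfalso; omega) | skip) <;>
    rw [pc, qc] at e1 <;> (first | exact absurd e1 (by decide) | skip)
  · -- `1` in the first run, `k` in the third run
    have hno : ∀ i, 1 ≤ i → i ≤ k → ¬ (w (f i) = 1) := by
      intro i hi hik hS
      have hcl : ∀ i j, 1 ≤ i → i < j → j ≤ k → E i j → (w (f i) = 1 ↔ w (f j) = 1) := by
        intro i j hi hij hj hE
        have e3 := hf3 i j hi (by omega) hj hE
        simp only at e3
        have gi := mono_gap hf2 le_rfl hi (show i ≤ k by omega)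
        have gj := mono_gap hf2 (show 1 ≤ j by omega) hj le_rfl
        have gij := hf2 i j hi hij hj
        rcases cl (f i) (hf1 i hi (by omega)) with ⟨r1, r2, rc⟩ | ⟨r1, r2, rc⟩ | ⟨r1, r2, rc⟩ | ⟨r1, r2, rc⟩ | ⟨r1, r2, rc⟩ <;>
        rcases cl (f j) (hf1 j (by omega) hj) with ⟨s1, s2, sc⟩ | ⟨s1, s2, sc⟩ | ⟨s1, s2, sc⟩ | ⟨s1, s2, sc⟩ | ⟨s1, s2, sc⟩ <;>
        (first | (exfalso; omega) | skip) <;>
        rw [rc, sc] at e3 <;> (first | exact absurd e3 (by decide) | skip) <;>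
        (first | (rw [rc, sc]; done) | (rw [rc, sc]; decide) | skip)
        -- `i = 1`
        have : i = 1 := by omega
        subst this
        have hjk : j < k := by
          by_contra hcon
          have : j = k := by omega
          subst this
          omega
        exact absurd hE (h2 j (by omega) hjk)
      have := hC.closed (fun i => w (f i) = 1) hcl hi hik hS 1 le_rfl (by omega)
      rw [pc] at this
      exact absurd this (by decide)
    have b2 := hf1 2 (by omega) (by omega)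
    have g2 := mono_gap hf2 (show 1 ≤ 2 by omega) (show 2 ≤ k by omega) le_rfl
    have g3 := hf2 1 2 le_rfl (by omega) (by omega)
    have h7 := hno 2 (by omega) (by omega)
    rcases cl (f 2) b2 with ⟨r1, r2, rc⟩ | ⟨r1, r2, rc⟩ | ⟨r1, r2, rc⟩ | ⟨r1, r2, rc⟩ | ⟨r1, r2, rc⟩ <;>
      first | omega | exact h7 rc
  · -- `1` in the second run, `k` in the fourth run
    have hno : ∀ i, 1 ≤ i → i ≤ k → ¬ (w (f i) = 3) := by
      intro i hi hik hS
      have hcl : ∀ i j, 1 ≤ i → i < j → j ≤ k → E i j → (w (f i) = 3 ↔ w (f j) = 3) := by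
        intro i j hi hij hj hE
        have e3 := hf3 i j hi (by omega) hj hE
        simp only at e3
        have gi := mono_gap hf2 le_rfl hi (show i ≤ k by omega)
        have gj := mono_gap hf2 (show 1 ≤ j by omega) hj le_rfl
        have gij := hf2 i j hi hij hj
        rcases cl (f i) (hf1 i hi (by omega)) with ⟨r1, r2, rc⟩ | ⟨r1, r2, rc⟩ | ⟨r1, r2, rc⟩ | ⟨r1, r2, rc⟩ | ⟨r1, r2, rc⟩ <;>
        rcases cl (f j) (hf1 j (by omega) hj) with ⟨s1, s2, sc⟩ | ⟨s1, s2, sc⟩ | ⟨s1, s2, sc⟩ | ⟨s1, s2, sc⟩ | ⟨s1, s2, sc⟩ <;>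
        (first | (exfalso; omega) | skip) <;>
        rw [rc, sc] at e3 <;> (first | exact absurd e3 (by decide) | skip) <;>
        (rw [rc, sc]; try decide)
      have := hC.closed (fun i => w (f i) = 3) hcl hi hik hS 1 le_rfl (by omega)
      rw [pc] at this
      exact absurd this (by decide)
    have b2 := hf1 (k - 1) (by omega) (by omega)
    have g2 := mono_gap hf2 (show 1 ≤ 1 by omega) (show 1 ≤ k - 1 by omega) (by omega)
    have g3 := hf2 (k - 1) k (by omega) (by omega) (by omega)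
    have h7 := hno (k - 1) (by omega) (by omega)
    rcases cl (f (k - 1)) b2 with ⟨r1, r2, rc⟩ | ⟨r1, r2, rc⟩ | ⟨r1, r2, rc⟩ | ⟨r1, r2, rc⟩ | ⟨r1, r2, rc⟩ <;>
      first | omega | exact h7 rc
  · -- `1` in the third run, `k` in the last run
    have bu := hf1 u (by omega) (by omega)
    have bv := hf1 v (by omega) (by omega)
    have g1 := mono_gap hf2 (le_refl 1) (show 1 ≤ u by omega) (by omega)
    have g2 := mono_gap hf2 (le_refl 1) (show 1 ≤ v by omega) (by omega)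
    have g3 := mono_gap hf2 (show 1 ≤ v by omega) (show v ≤ k by omega) le_rfl
    have g5 := hf2 u v (by omega) h4 (by omega)
    have e3 := hf3 u v (by omega) h4 (by omega) h6
    simp only at e3
    rcases cl (f u) bu with ⟨r1, r2, rc⟩ | ⟨r1, r2, rc⟩ | ⟨r1, r2, rc⟩ | ⟨r1, r2, rc⟩ | ⟨r1, r2, rc⟩ <;>
    rcases cl (f v) bv with ⟨s1, s2, sc⟩ | ⟨s1, s2, sc⟩ | ⟨s1, s2, sc⟩ | ⟨s1, s2, sc⟩ | ⟨s1, s2, sc⟩ <;>
    (first | (exfalso; omega) | skip) <;>
    rw [rc, sc] at e3 <;> exact absurd e3 (by decide)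

/-- the word of JOB F -/
def w7 (k a b : ℕ) (x : ℕ) : Fin 5 :=
  if x < k then (if x = a then 0 else 1) else if x = k then 2 else
    if x = k + b - 1 then 4 else 3

theorem stF : StF := by
  intro k E a a1 b b1 hC hn h1 h2 h3 h4 h5 hb hb1 ha ha1 _ _
  refine ⟨w7 k a b, ?_⟩
  rintro ⟨f, hf1, hf2, hf3⟩
  have g4 := mono_gap hf2 (le_refl 1) (show 1 ≤ k by omega) le_rfl
  have c1 := hf1 1 le_rfl (by omega)
  have ck := hf1 k (by omega) le_rfl
  have e1 := hf3 1 b le_rfl (by omega) (by omega) hb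
  have e2 := hf3 1 b1 le_rfl (by omega) (by omega) hb1
  have e3 := hf3 a k (by omega) (by omega) le_rfl ha
  have e4 := hf3 a1 k (by omega) (by omega) le_rfl ha1
  simp only at e1 e2 e3 e4
  have gb := mono_gap hf2 (le_refl 1) (show 1 ≤ b by omega) (by omega)
  have gb' := mono_gap hf2 (show 1 ≤ b by omega) (show b ≤ k by omega) le_rfl
  have ga := mono_gap hf2 (le_refl 1) (show 1 ≤ a by omega) (by omega)
  have ga' := mono_gap hf2 (show 1 ≤ a by omega) (show a ≤ k by omega) le_rfl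
  have m1 := hf2 a1 a (by omega) h2 (by omega)
  have m2 := hf2 a b (by omega) h3 (by omega)
  have m3 := hf2 b b1 (by omega) h4 (by omega)
  have m4 := hf2 a k (by omega) (by omega) le_rfl
  have m5 := hf2 1 b le_rfl (by omega) (by omega)
  have dl : ∀ x, x < k → w7 k a b x = if x = a then 0 else 1 := fun x hx => by
    unfold w7
    rw [if_pos hx]
  have dm : w7 k a b k = 2 := by
    unfold w7
    rw [if_neg (by omega), if_pos rfl]
  have dr : ∀ x, k < x → w7 k a b x = if x = k + b - 1 then 4 else 3 := fun x hx => by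
    unfold w7
    rw [if_neg (by omega), if_neg (by omega)]
  -- crossing edges
  have cr : ∀ x y, x < k → k < y → rg (w7 k a b x) (w7 k a b y) → x = a ∧ y = k + b - 1 := by
    intro x y hx hy h
    rw [dl x hx, dr y hy] at h
    by_cases p : x = a
    · by_cases q : y = k + b - 1
      · exact ⟨p, q⟩
      · rw [if_pos p, if_neg q] at h
        exact absurd h (by decide)
    · by_cases q : y = k + b - 1
      · rw [if_neg p, if_pos q] at h
        exact absurd h (by decide)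
      · rw [if_neg p, if_neg q] at h
        exact absurd h (by decide)
  rcases lt_trichotomy (f 1) k with h | h | h
  · rcases lt_trichotomy (f k) k with h' | h' | h'
    · omega
    · have : f a = a := by omega
      rw [h', dm, dl (f a) (by omega), if_pos this] at e3
      exact absurd e3 (by decide)
    · have hfa : k ≤ f a := by
        by_contra hcon
        have d1 := cr (f a) (f k) (by omega) h' e3
        have d2 := cr (f a1) (f k) (by omega) h' e4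
        omega
      have hfb : f b ≤ k := by
        by_contra hcon
        have d1 := cr (f 1) (f b) h (by omega) e1
        have d2 := cr (f 1) (f b1) h (by omega) e2
        omega
      omega
  · have : f b = k + b - 1 := by omega
    rw [h, dm, dr (f b) (by omega), if_pos this] at e1
    exact absurd e1 (by decide)
  · omega

end Pool.Agent.K7.H89.OGW
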