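import Pool.Agent.K7.H50.OG.Basic

set_option autoImplicit false

namespace Pool.Agent.K7.H89.OGY

open Pool.Agent.K7.H50.OG

/-- the word `1^(a-1) 3^(v-1) 0 4^(k-v) 1^(k-1-a) 2` -/
def w6 (t1 t2 t3 t4 t5 : ℕ) (x : ℕ) : Fin 5 :=
  if x ≤ t1 then 1 else if x ≤ t2 then 3 else if x ≤ t3 then 0 else if x ≤ t4 then 4 else
    if x ≤ t5 then 1 else 2

theorem cl6 (t1 t2 t3 t4 t5 N : ℕ) (x : ℕ) (h : 1 ≤ x ∧ x ≤ N) :
    (0 < x ∧ x ≤ t1 ∧ w6 t1 t2 t3 t4 t5 x = 1) ∨
    (t1 < x ∧ x ≤ t2 ∧ w6 t1 t2 t3 t4 t5 x = 3) ∨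
    (t2 < x ∧ x ≤ t3 ∧ w6 t1 t2 t3 t4 t5 x = 0) ∨
    (t3 < x ∧ x ≤ t4 ∧ w6 t1 t2 t3 t4 t5 x = 4) ∨
    (t4 < x ∧ x ≤ t5 ∧ w6 t1 t2 t3 t4 t5 x = 1) ∨
    (t5 < x ∧ x ≤ N ∧ w6 t1 t2 t3 t4 t5 x = 2) := by
  unfold w6
  split_ifs with h1 h2 h3 h4 h5
  · exact Or.inl ⟨by omega, h1, rfl⟩
  · exact Or.inr (Or.inl ⟨by omega, h2, rfl⟩)
  · exact Or.inr (Or.inr (Or.inl ⟨by omega, h3, rfl⟩))
  · exact Or.inr (Or.inr (Or.inr (Or.inl ⟨by omega, h4, rfl⟩)))
  · exact Or.inr (Or.inr (Or.inr (Or.inr (Or.inl ⟨by omega, h5, rfl⟩))))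
  · exact Or.inr (Or.inr (Or.inr (Or.inr (Or.inr ⟨by omega, h.2, rfl⟩))))

theorem stY : StY := by
  intro k E a y v hL hy hyv hva hE
  have ha := hL.ha
  have hb := hL.hb
  have e1 := hL.e1
  have ek := hL.ek
  have uk := hL.uk
  by_cases hcop : Cop k (2 * k - 1) E (fun x y =>
      rg (w6 (a - 1) (a + v - 2) (a + v - 1) (a + k - 1) (2 * k - 2) x)
        (w6 (a - 1) (a + v - 2) (a + v - 1) (a + k - 1) (2 * k - 2) y))
  swap
  · exact Or.inl ⟨_, hcop⟩
  right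
  obtain ⟨f, hf1, hf2, hf3⟩ := hcop
  have cl := cl6 (a - 1) (a + v - 2) (a + v - 1) (a + k - 1) (2 * k - 2) (2 * k - 1)
  generalize w6 (a - 1) (a + v - 2) (a + v - 1) (a + k - 1) (2 * k - 2) = w at hf3 cl
  have gk : ∀ i, 1 ≤ i → i ≤ k → i ≤ f i ∧ f i + k ≤ 2 * k - 1 + i := by
    intro i h1 h2
    have g1 := mono_gap hf2 le_rfl h1 h2
    have g2 := mono_gap hf2 h1 h2 le_rfl
    have b1 := hf1 1 le_rfl (by omega)
    have bk := hf1 k (by omega) le_rfl
    omega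
  have ga := gk a (by omega) (by omega)
  have ga1 := gk (a + 1) (by omega) (by omega)
  have gk0 := gk k (by omega) le_rfl
  have d1 := hf3 1 (a + 1) le_rfl (by omega) (by omega) e1
  have dk := hf3 a k (by omega) (by omega) le_rfl ek
  simp only at d1 dk
  have m1 := hf2 a (a + 1) (by omega) (by omega) (by omega)
  have m2 := hf2 (a + 1) k (by omega) (by omega) le_rfl
  have m3 := hf2 1 a le_rfl (by omega) (by omega)
  have b1 := hf1 1 le_rfl (by omega)
  have ba := hf1 a (by omega) (by omega)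
  have ba1 := hf1 (a + 1) (by omega) (by omega)
  have bk := hf1 k (by omega) le_rfl
  -- the middle letter is used
  have hx : ∃ s, 1 ≤ s ∧ s ≤ k ∧ f s = a + v - 1 := by
    by_contra hx
    push Not at hx
    have hcl : ∀ i j, 1 ≤ i → i < j → j ≤ k → E i j →
        ((i < k → a - 1 < f i ∧ f i ≤ a + k - 1) ↔ (j < k → a - 1 < f j ∧ f j ≤ a + k - 1)) := by
      intro i j h1 h2 h3 h4
      rcases Nat.lt_or_ge j k with h5 | h5
      · have e3 := hf3 i j h1 h2 h3 h4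
        simp only at e3
        have x1 := hx i h1 (by omega)
        have x2 := hx j (by omega) h3
        have l1 := hf2 i j h1 h2 h3
        have l2 := hf2 j k (by omega) h5 le_rfl
        rcases cl (f i) (hf1 i h1 (by omega)) with ⟨r1, r2, rc⟩ | ⟨r1, r2, rc⟩ | ⟨r1, r2, rc⟩ |
          ⟨r1, r2, rc⟩ | ⟨r1, r2, rc⟩ | ⟨r1, r2, rc⟩ <;>
        rcases cl (f j) (hf1 j (by omega) h3) with ⟨s1, s2, sc⟩ | ⟨s1, s2, sc⟩ | ⟨s1, s2, sc⟩ |
          ⟨s1, s2, sc⟩ | ⟨s1, s2, sc⟩ | ⟨s1, s2, sc⟩ <;>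
        first
          | omega
          | (exfalso; rw [rc, sc] at e3; exact absurd e3 (by decide))
      · have h6 : j = k := by omega
        subst h6
        have h7 := uk i h1 h2 h4
        subst h7
        omega
    have h1 := hL.con.closed (fun i => i < k → a - 1 < f i ∧ f i ≤ a + k - 1) hcl
      (show 1 ≤ a by omega) (by omega) (by intro _; omega) 1 le_rfl (by omega) (by omega)
    have g1 := mono_gap hf2 le_rfl (show 1 ≤ a by omega) (by omega)
    have g2 := mono_gap hf2 le_rfl (show 1 ≤ v by omega) (by omega)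
    have g3 := mono_gap hf2 (show 1 ≤ v by omega) (show v ≤ k by omega) le_rfl
    have x1 := hx v (by omega) (by omega)
    have x2 := hx a (by omega) (by omega)
    rcases cl (f a) ba with ⟨r1, r2, rc⟩ | ⟨r1, r2, rc⟩ | ⟨r1, r2, rc⟩ |
      ⟨r1, r2, rc⟩ | ⟨r1, r2, rc⟩ | ⟨r1, r2, rc⟩ <;> first | omega | skip
    rcases cl (f k) bk with ⟨s1, s2, sc⟩ | ⟨s1, s2, sc⟩ | ⟨s1, s2, sc⟩ |
      ⟨s1, s2, sc⟩ | ⟨s1, s2, sc⟩ | ⟨s1, s2, sc⟩ <;>
      first
        | omega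
        | (rw [rc, sc] at dk; exact absurd dk (by decide))
  obtain ⟨s, hs1, hsk, hfs⟩ := hx
  have ev := hf3 y v hy hyv (by omega) hE
  simp only at ev
  have mvy := hf2 y v hy hyv (by omega)
  have by' := hf1 y hy (by omega)
  have bv := hf1 v (by omega) (by omega)
  have gy := mono_gap hf2 le_rfl hy (by omega)
  have gv := mono_gap hf2 le_rfl (show 1 ≤ v by omega) (by omega)
  have gs := mono_gap hf2 le_rfl hs1 hsk
  have gs' := mono_gap hf2 hs1 hsk le_rfl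
  rcases lt_trichotomy s a with hsa | hsa | hsa
  · -- `s < a`
    exfalso
    have l1 := hf2 s a hs1 hsa (by omega)
    rcases cl (f a) ba with ⟨r1, r2, rc⟩ | ⟨r1, r2, rc⟩ | ⟨r1, r2, rc⟩ |
      ⟨r1, r2, rc⟩ | ⟨r1, r2, rc⟩ | ⟨r1, r2, rc⟩ <;> first | omega | skip
    rcases cl (f k) bk with ⟨s1, s2, sc⟩ | ⟨s1, s2, sc⟩ | ⟨s1, s2, sc⟩ |
      ⟨s1, s2, sc⟩ | ⟨s1, s2, sc⟩ | ⟨s1, s2, sc⟩ <;>
      first
        | omega
        | (exfalso; rw [rc, sc] at dk; exact absurd dk (by decide))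
        | skip
    rcases cl (f (a + 1)) ba1 with ⟨p1, p2, pc⟩ | ⟨p1, p2, pc⟩ | ⟨p1, p2, pc⟩ |
      ⟨p1, p2, pc⟩ | ⟨p1, p2, pc⟩ | ⟨p1, p2, pc⟩ <;> first | omega | skip
    have h1a : a - 1 < f 1 := by
      rcases cl (f 1) b1 with ⟨q1, q2, qc⟩ | ⟨q1, q2, qc⟩ | ⟨q1, q2, qc⟩ |
        ⟨q1, q2, qc⟩ | ⟨q1, q2, qc⟩ | ⟨q1, q2, qc⟩ <;>
        first
          | omega
          | (exfalso; rw [pc, qc] at d1; exact absurd d1 (by decide))
    have hsv : s = v := by omega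
    subst hsv
    rcases cl (f y) by' with ⟨x1, x2, xc⟩ | ⟨x1, x2, xc⟩ | ⟨x1, x2, xc⟩ |
      ⟨x1, x2, xc⟩ | ⟨x1, x2, xc⟩ | ⟨x1, x2, xc⟩ <;> first | omega | skip
    rcases cl (f s) bv with ⟨z1, z2, zc⟩ | ⟨z1, z2, zc⟩ | ⟨z1, z2, zc⟩ |
      ⟨z1, z2, zc⟩ | ⟨z1, z2, zc⟩ | ⟨z1, z2, zc⟩ <;>
      first
        | omega
        | (rw [xc, zc] at ev; exact absurd ev (by decide))
  · -- `s = a`
    exfalso
    subst hsa
    rcases cl (f s) ba with ⟨r1, r2, rc⟩ | ⟨r1, r2, rc⟩ | ⟨r1, r2, rc⟩ |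
      ⟨r1, r2, rc⟩ | ⟨r1, r2, rc⟩ | ⟨r1, r2, rc⟩ <;> first | omega | skip
    have hk2 : f k ≤ 2 * k - 2 := by
      rcases cl (f k) bk with ⟨s1, s2, sc⟩ | ⟨s1, s2, sc⟩ | ⟨s1, s2, sc⟩ |
        ⟨s1, s2, sc⟩ | ⟨s1, s2, sc⟩ | ⟨s1, s2, sc⟩ <;>
        first
          | omega
          | (exfalso; rw [rc, sc] at dk; exact absurd dk (by decide))
    have g2 := mono_gap hf2 (show 1 ≤ s + 1 by omega) (show s + 1 ≤ k by omega) le_rfl
    rcases cl (f (s + 1)) ba1 with ⟨p1, p2, pc⟩ | ⟨p1, p2, pc⟩ | ⟨p1, p2, pc⟩ |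
      ⟨p1, p2, pc⟩ | ⟨p1, p2, pc⟩ | ⟨p1, p2, pc⟩ <;> first | omega | skip
    have h1a : s - 1 < f 1 := by
      rcases cl (f 1) b1 with ⟨q1, q2, qc⟩ | ⟨q1, q2, qc⟩ | ⟨q1, q2, qc⟩ |
        ⟨q1, q2, qc⟩ | ⟨q1, q2, qc⟩ | ⟨q1, q2, qc⟩ <;>
        first
          | omega
          | (exfalso; rw [pc, qc] at d1; exact absurd d1 (by decide))
    have hsv : v = s := by omega
    subst hsv
    rcases cl (f y) by' with ⟨x1, x2, xc⟩ | ⟨x1, x2, xc⟩ | ⟨x1, x2, xc⟩ |
      ⟨x1, x2, xc⟩ | ⟨x1, x2, xc⟩ | ⟨x1, x2, xc⟩ <;> first | omega | skip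
    rw [xc, rc] at ev
    exact absurd ev (by decide)
  · -- `s > a`
    have l1 := hf2 a s (by omega) hsa hsk
    rcases cl (f a) ba with ⟨r1, r2, rc⟩ | ⟨r1, r2, rc⟩ | ⟨r1, r2, rc⟩ |
      ⟨r1, r2, rc⟩ | ⟨r1, r2, rc⟩ | ⟨r1, r2, rc⟩ <;> first | (exfalso; omega) | skip
    rcases Nat.lt_or_ge (a + 1) s with hs2 | hs2
    · exfalso
      have l2 := hf2 (a + 1) s (by omega) hs2 hsk
      rcases cl (f (a + 1)) ba1 with ⟨p1, p2, pc⟩ | ⟨p1, p2, pc⟩ | ⟨p1, p2, pc⟩ |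
        ⟨p1, p2, pc⟩ | ⟨p1, p2, pc⟩ | ⟨p1, p2, pc⟩ <;> first | omega | skip
      rcases cl (f 1) b1 with ⟨q1, q2, qc⟩ | ⟨q1, q2, qc⟩ | ⟨q1, q2, qc⟩ |
        ⟨q1, q2, qc⟩ | ⟨q1, q2, qc⟩ | ⟨q1, q2, qc⟩ <;>
        first
          | omega
          | (exfalso; rw [pc, qc] at d1; exact absurd d1 (by decide))
    · have hsa1 : s = a + 1 := by omega
      subst hsa1
      rcases cl (f (a + 1)) ba1 with ⟨p1, p2, pc⟩ | ⟨p1, p2, pc⟩ | ⟨p1, p2, pc⟩ |
        ⟨p1, p2, pc⟩ | ⟨p1, p2, pc⟩ | ⟨p1, p2, pc⟩ <;> first | (exfalso; omega) | skip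
      have h1a : f 1 ≤ a - 1 := by
        rcases cl (f 1) b1 with ⟨q1, q2, qc⟩ | ⟨q1, q2, qc⟩ | ⟨q1, q2, qc⟩ |
          ⟨q1, q2, qc⟩ | ⟨q1, q2, qc⟩ | ⟨q1, q2, qc⟩ <;>
          first
            | omega
            | (exfalso; rw [pc, qc] at d1; exact absurd d1 (by decide))
      obtain ⟨i, c1, c2, c3⟩ := cut hf2 (a - 1)
      obtain ⟨u4, c4, c5, c6⟩ := cut hf2 (a + k - 1)
      have hi1 : 1 ≤ i := by
        by_contra hcon
        have := c3 1 (by omega) (by omega)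
        omega
      have hia : i < a := by
        by_contra hcon
        have := c2 a (by omega) (by omega)
        omega
      have hiv : a + 1 ≤ i + v := by
        have g1 := mono_gap hf2 (show 1 ≤ i + 1 by omega) (show i + 1 ≤ a + 1 by omega) (by omega)
        have g2 := c3 (i + 1) (by omega) (by omega)
        omega
      have hu4 : a + 1 ≤ u4 := by
        by_contra hcon
        have := c6 (a + 1) (by omega) (by omega)
        omega
      have hlast : ∀ u, i < u → u ≤ a → ¬ E u (a + 1) := by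
        intro u h1 h2 h3
        have e3 := hf3 u (a + 1) (by omega) (by omega) (by omega) h3
        simp only at e3
        have g1 := c3 u h1 (by omega)
        have g2 := hf2 u (a + 1) (by omega) (by omega) (by omega)
        rcases cl (f u) (hf1 u (by omega) (by omega)) with ⟨q1, q2, qc⟩ | ⟨q1, q2, qc⟩ |
          ⟨q1, q2, qc⟩ | ⟨q1, q2, qc⟩ | ⟨q1, q2, qc⟩ | ⟨q1, q2, qc⟩ <;>
          first
            | omega
            | (exfalso; rw [pc, qc] at e3; exact absurd e3 (by decide))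
      -- the class of `t` and `InA`
      have hcls : ∀ j, (j = u4 + 1 ∨ (k ≤ j ∧ u4 = k)) → ∀ t, 1 ≤ t → t < k → t ≠ a + 1 →
          (InA k i j t ↔ w (f t) = 1) := by
        intro j hj t h1 h2 h3
        have l3 : t < a + 1 → f t < a + v - 1 := fun h => by
          have := hf2 t (a + 1) h1 h (by omega)
          omega
        have l4 : a + 1 < t → a + v - 1 < f t := fun h => by
          have := hf2 (a + 1) t (by omega) h (by omega)
          omega
        have l5 := hf2 t k h1 h2 le_rfl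
        have l6 : t ≤ i → f t ≤ a - 1 := fun h => c2 t h1 h
        have l7 : i < t → a - 1 < f t := fun h => c3 t h (by omega)
        have l8 : t ≤ u4 → f t ≤ a + k - 1 := fun h => c5 t h1 h
        have l9 : u4 < t → a + k - 1 < f t := fun h => c6 t h (by omega)
        unfold InA
        rcases cl (f t) (hf1 t h1 (by omega)) with ⟨q1, q2, qc⟩ | ⟨q1, q2, qc⟩ |
          ⟨q1, q2, qc⟩ | ⟨q1, q2, qc⟩ | ⟨q1, q2, qc⟩ | ⟨q1, q2, qc⟩ <;> rw [qc]
        · have : t ≤ i := by omega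
          simp [this]
        · have : ¬ (t ≤ i ∨ j ≤ t ∧ t < k) := by omega
          simp only [this, false_iff]
          decide
        · omega
        · have : ¬ (t ≤ i ∨ j ≤ t ∧ t < k) := by omega
          simp only [this, false_iff]
          decide
        · have : t ≤ i ∨ j ≤ t ∧ t < k := by omega
          simp [this]
        · omega
      have hfin : ∀ j, (j = u4 + 1 ∨ (k ≤ j ∧ u4 = k)) → a + 2 ≤ j → ∀ u w, 1 ≤ u → u < w →
          w ≤ k → u ≠ a + 1 → w ≠ a + 1 → E u w → (InA k i j u ↔ InA k i j w) := by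
        intro j hj hj2 u t h1 h2 h3 h4 h5 h6
        rcases Nat.lt_or_ge t k with h7 | h7
        · rw [hcls j hj u h1 (by omega) h4, hcls j hj t (by omega) h7 h5]
          have e3 := hf3 u t h1 h2 h3 h6
          simp only at e3
          have l3 : u < a + 1 → f u < a + v - 1 := fun h => by
            have := hf2 u (a + 1) h1 h (by omega)
            omega
          have l4 : a + 1 < u → a + v - 1 < f u := fun h => by
            have := hf2 (a + 1) u (by omega) h (by omega)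
            omega
          have l5 : t < a + 1 → f t < a + v - 1 := fun h => by
            have := hf2 t (a + 1) (by omega) h (by omega)
            omega
          have l6 : a + 1 < t → a + v - 1 < f t := fun h => by
            have := hf2 (a + 1) t (by omega) h (by omega)
            omega
          have l7 := hf2 t k (by omega) h7 le_rfl
          have l8 := hf2 u t h1 h2 h3
          rcases cl (f u) (hf1 u h1 (by omega)) with ⟨r1, r2, rc⟩ | ⟨r1, r2, rc⟩ | ⟨r1, r2, rc⟩ |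
            ⟨r1, r2, rc⟩ | ⟨r1, r2, rc⟩ | ⟨r1, r2, rc⟩ <;>
          rcases cl (f t) (hf1 t (by omega) h3) with ⟨s1, s2, sc⟩ | ⟨s1, s2, sc⟩ | ⟨s1, s2, sc⟩ |
            ⟨s1, s2, sc⟩ | ⟨s1, s2, sc⟩ | ⟨s1, s2, sc⟩ <;>
          first
            | (exfalso; omega)
            | (exfalso; rw [rc, sc] at e3; exact absurd e3 (by decide))
            | (rw [rc, sc]; done)
            | (rw [rc, sc]; decide)
        · have h8 : t = k := by omega
          subst h8
          have h9 := uk u h1 h2 h6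
          subst h9
          unfold InA
          omega
      rcases cl (f k) bk with ⟨s1, s2, sc⟩ | ⟨s1, s2, sc⟩ | ⟨s1, s2, sc⟩ |
        ⟨s1, s2, sc⟩ | ⟨s1, s2, sc⟩ | ⟨s1, s2, sc⟩ <;>
        first
          | (exfalso; omega)
          | (exfalso; rw [rc, sc] at dk; exact absurd dk (by decide))
          | skip
      · have hu : u4 = k := by
          by_contra hcon
          have := c6 k (by omega) le_rfl
          omega
        exact ⟨i, k, hi1, hia, hiv, by omega, le_rfl, hfin k (Or.inr ⟨le_rfl, hu⟩) (by omega),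
          hlast⟩
      · have hu : u4 < k := by
          by_contra hcon
          have := c5 k (by omega) (by omega)
          omega
        exact ⟨i, u4 + 1, hi1, hia, hiv, by omega, by omega, hfin (u4 + 1) (Or.inl rfl) (by omega),
          hlast⟩

end Pool.Agent.K7.H89.OGY
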