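import Pool.Agent.K7.H81.PD.Stm3

/-! # Project PD, job WEI: the Weierstrass theorem for balls of `ℝ^N` (helper89) -/

set_option autoImplicit false

noncomputable section

namespace Pool.Agent.K7.H89.PDWEI

open Pool.Agent.K7.H81.PD

/-- the coordinate functions on the ball -/
def coord (N : ℕ) (R : ℝ) (i : Fin N) : C(Metric.closedBall (0 : E N) R, ℝ) where
  toFun x := x.1 i
  continuous_toFun := by fun_prop

/-- the polynomials on the ball -/
def polyHom (N : ℕ) (R : ℝ) : MvPolynomial (Fin N) ℝ →ₐ[ℝ] C(Metric.closedBall (0 : E N) R, ℝ) :=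
  MvPolynomial.aeval (coord N R)

lemma polyHom_apply {N : ℕ} {R : ℝ} (P : MvPolynomial (Fin N) ℝ)
    (x : Metric.closedBall (0 : E N) R) :
    polyHom N R P x = MvPolynomial.eval (fun i => x.1 i) P := by
  induction P using MvPolynomial.induction_on with
  | C a => simp [polyHom]
  | add p q hp hq => rw [map_add, map_add, ContinuousMap.add_apply, hp, hq]
  | mul_X p i hp =>
    rw [map_mul, map_mul, ContinuousMap.mul_apply, hp]
    simp [polyHom, coord]

theorem t : StWei := by
  intro N R ε φ hφ hε
  have hK : CompactSpace (Metric.closedBall (0 : E N) R) :=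
    isCompact_iff_compactSpace.1 (isCompact_closedBall _ _)
  have hsep : (polyHom N R).range.SeparatesPoints := by
    intro x y hxy
    have : ∃ i, x.1 i ≠ y.1 i := by
      by_contra h
      push Not at h
      exact hxy (Subtype.ext (by ext i; exact h i))
    obtain ⟨i, hi⟩ := this
    refine ⟨_, ⟨polyHom N R (MvPolynomial.X i), ⟨_, rfl⟩, rfl⟩, ?_⟩
    show polyHom N R (MvPolynomial.X i) x ≠ polyHom N R (MvPolynomial.X i) y
    rw [polyHom_apply, polyHom_apply]
    simpa using hi
  obtain ⟨⟨g, P, hP⟩, hg⟩ :=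
    ContinuousMap.exists_mem_subalgebra_near_continuous_of_separatesPoints
      (polyHom N R).range hsep (fun x => φ x.1) (by fun_prop) ε hε
  refine ⟨fun x => MvPolynomial.eval (fun i => x i) P, ⟨P, fun _ => rfl⟩, fun x hx => ?_⟩
  have h := hg ⟨x, by simpa using hx⟩
  have h1 : polyHom N R P ⟨x, by simpa using hx⟩ = MvPolynomial.eval (fun i => x i) P :=
    polyHom_apply P _
  have hP' : polyHom N R P = g := hP
  rw [hP'] at h1
  have h2 : ‖g ⟨x, by simpa using hx⟩ - φ x‖ < ε := h
  rw [h1, Real.norm_eq_abs] at h2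
  exact h2.le

end Pool.Agent.K7.H89.PDWEI
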