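import Mathlib

/-!
A counterexample to: compact Zariski topology implies Noetherian Zariski topology.

Take `G = ℕ → Perm (Fin 3)`, a compact Hausdorff topological group (product of discrete finite
groups). Every one-variable equation with constants has a solution set closed in the product
topology, so the Zariski topology is coarser than a compact topology, hence compact. The
centralizers of the elements supported at one coordinate give a strictly descending chain of
closed sets, so the Zariski topology is not Noetherian.
-/

set_option autoImplicit false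


namespace Pool.Agent.K7.H89.ZariskiPower

/-- The group of the counterexample: a countable power of `S₃`. -/
abbrev GG : Type := ℕ → Equiv.Perm (Fin 3)

/-- evaluation of a word with constants at `x`. -/
noncomputable abbrev ev {G : Type} [Group G] (w : Monoid.Coprod G (Multiplicative ℤ)) (x : G) : G :=
  Monoid.Coprod.lift (MonoidHom.id G) (zpowersHom G x) w

theorem continuous_ev {G : Type} [Group G] [TopologicalSpace G] [IsTopologicalGroup G]
    (w : Monoid.Coprod G (Multiplicative ℤ)) : Continuous (fun x : G => ev w x) := by
  induction w using Monoid.Coprod.induction_on with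
  | inl g => simpa [ev] using continuous_const
  | inr n =>
    have : (fun x : G => ev (Monoid.Coprod.inr n) x) = fun x : G => x ^ (Multiplicative.toAdd n) := by
      funext x
      simp [ev, zpowersHom_apply]
    rw [this]
    exact continuous_zpow _
  | mul a b ha hb =>
    have : (fun x : G => ev (a * b) x) = fun x : G => ev a x * ev b x := by
      funext x
      simp [ev]
    rw [this]
    exact ha.mul hb

/-- The collection of subbasic open sets. -/
abbrev subb (G : Type) [Group G] : Set (Set G) :=
  {U : Set G | ∃ w : Monoid.Coprod G (Multiplicative ℤ),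
            U = {x : G | Monoid.Coprod.lift (MonoidHom.id G) (zpowersHom G x) w ≠ 1}}

theorem compact_of_compact_group {G : Type} [Group G] [t : TopologicalSpace G]
    [IsTopologicalGroup G] [CompactSpace G] [T1Space G] :
    @IsCompact G (TopologicalSpace.generateFrom (subb G)) Set.univ := by
  have hle : t ≤ TopologicalSpace.generateFrom (subb G) := by
    apply le_generateFrom
    rintro U ⟨w, rfl⟩
    have : {x : G | Monoid.Coprod.lift (MonoidHom.id G) (zpowersHom G x) w ≠ 1}
        = (fun x : G => ev w x) ⁻¹' ({1}ᶜ) := by
      ext x; simp [ev]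
    rw [this]
    exact (isClosed_singleton.isOpen_compl).preimage (continuous_ev w)
  have h1 : @IsCompact G t Set.univ := isCompact_univ
  have h2 := @IsCompact.image G G t (TopologicalSpace.generateFrom (subb G)) Set.univ id h1
    (continuous_id_iff_le.mpr hle)
  simpa using h2

/-- The element with the transposition `(0 1)` at coordinate `n`. -/
def tr (n : ℕ) : GG := Pi.mulSingle n (Equiv.swap 0 1)

/-- The word `g x g⁻¹ x⁻¹`. -/
noncomputable def cw {G : Type} [Group G] (g : G) : Monoid.Coprod G (Multiplicative ℤ) :=
  Monoid.Coprod.inl g * Monoid.Coprod.inr (Multiplicative.ofAdd 1) * Monoid.Coprod.inl g⁻¹ *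
    Monoid.Coprod.inr (Multiplicative.ofAdd (-1))

theorem ev_cw {G : Type} [Group G] (g x : G) : ev (cw g) x = g * x * g⁻¹ * x⁻¹ := by
  simp [ev, cw, zpowersHom_apply]

theorem ev_cw_ne {G : Type} [Group G] (g x : G) :
    ev (cw g) x ≠ 1 ↔ g * x ≠ x * g := by
  rw [ev_cw, ne_eq, ne_eq, not_iff_not, mul_inv_eq_one, mul_inv_eq_iff_eq_mul]

theorem compact_not_noetherian :
    ¬ (∀ (G : Type) [Group G],
      @IsCompact G
        (TopologicalSpace.generateFrom
          {U : Set G | ∃ w : Monoid.Coprod G (Multiplicative ℤ),
            U = {x : G | Monoid.Coprod.lift (MonoidHom.id G) (zpowersHom G x) w ≠ 1}})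
        Set.univ →
      @TopologicalSpace.NoetherianSpace G
        (TopologicalSpace.generateFrom
          {U : Set G | ∃ w : Monoid.Coprod G (Multiplicative ℤ),
            U = {x : G | Monoid.Coprod.lift (MonoidHom.id G) (zpowersHom G x) w ≠ 1}})) := by
  intro H
  have hc : @IsCompact GG (TopologicalSpace.generateFrom (subb GG)) Set.univ := by
    let _ : TopologicalSpace (Equiv.Perm (Fin 3)) := ⊥
    have _ : DiscreteTopology (Equiv.Perm (Fin 3)) := ⟨rfl⟩
    exact compact_of_compact_group
  have hN := H GG hc
  clear hc H
  let tz : TopologicalSpace GG := TopologicalSpace.generateFrom (subb GG)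
  have hN' : WellFoundedGT (TopologicalSpace.Opens GG) := hN
  have hopen : ∀ i : ℕ, IsOpen {x : GG | tr i * x ≠ x * tr i} := by
    intro i
    apply TopologicalSpace.isOpen_generateFrom_of_mem
    refine ⟨cw (tr i), ?_⟩
    ext x
    exact (ev_cw_ne (tr i) x).symm
  let f : ℕ → TopologicalSpace.Opens GG := fun n =>
    ⟨⋃ i ∈ Finset.range n, {x : GG | tr i * x ≠ x * tr i}, isOpen_biUnion (fun i _ => hopen i)⟩
  apply not_strictMono_of_wellFoundedGT f
  apply strictMono_nat_of_lt_succ
  intro n
  rw [SetLike.lt_iff_le_and_exists]
  refine ⟨?_, Pi.mulSingle n (Equiv.swap 1 2), ?_, ?_⟩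
  · intro x hx
    simp only [f, TopologicalSpace.Opens.mem_mk, Set.mem_iUnion, Finset.mem_range] at hx ⊢
    obtain ⟨i, hi, hx⟩ := hx
    exact ⟨i, by omega, hx⟩
  · simp only [f, TopologicalSpace.Opens.mem_mk, Set.mem_iUnion, Finset.mem_range]
    refine ⟨n, by omega, ?_⟩
    simp only [Set.mem_ofPred_eq, tr]
    intro h
    have := congrFun h n
    simp only [Pi.mul_apply, Pi.mulSingle_eq_same] at this
    revert this
    decide
  · simp only [f, TopologicalSpace.Opens.mem_mk, Set.mem_iUnion, Finset.mem_range]
    rintro ⟨i, hi, hx⟩
    apply hx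
    exact (Pi.mulSingle_commute (f := fun _ : ℕ => Equiv.Perm (Fin 3)) (by omega : i ≠ n) _ _).eq

end Pool.Agent.K7.H89.ZariskiPower
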